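import Pool.Agent.Helper84K9.SG.Stm

/-! Leaf INT2: events which depend on private pairs of coordinates. -/

set_option autoImplicit false

namespace Pool.Agent.Helper84K9.SG

open Finset

namespace Int2L

lemma nc {α : Type} [Fintype α] (P : α → Prop) [DecidablePred P] :
    {p : α | P p}.ncard = (univ.filter P).card := by
  rw [← Set.ncard_coe_finset]
  congr 1
  ext p
  simp

lemma sum_update2 {ι ι' κ κ' : Type} [Fintype ι] [DecidableEq ι] [Fintype κ] [Fintype ι']
    [DecidableEq ι'] [Fintype κ'] (c : ι) (c' : ι') (f : (ι → κ) → (ι' → κ') → ℕ) :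
    ∑ p : (ι → κ) × (ι' → κ'), ∑ q : κ × κ',
        f (Function.update p.1 c q.1) (Function.update p.2 c' q.2) =
      (Fintype.card κ * Fintype.card κ') * ∑ p : (ι → κ) × (ι' → κ'), f p.1 p.2 := by
  simp only [Fintype.sum_prod_type]
  calc ∑ ω : ι → κ, ∑ ω' : ι' → κ', ∑ t : κ, ∑ t' : κ',
        f (Function.update ω c t) (Function.update ω' c' t')
      = ∑ ω : ι → κ, ∑ t : κ, ∑ ω' : ι' → κ', ∑ t' : κ',
        f (Function.update ω c t) (Function.update ω' c' t') := by
        apply Finset.sum_congr rfl
        intro ω _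
        rw [Finset.sum_comm]
    _ = ∑ ω : ι → κ, ∑ t : κ, Fintype.card κ' * ∑ ω' : ι' → κ',
        f (Function.update ω c t) ω' := by
        apply Finset.sum_congr rfl
        intro ω _
        apply Finset.sum_congr rfl
        intro t _
        exact Helper84K9.GP.sum_update c' (fun ω' => f (Function.update ω c t) ω')
    _ = Fintype.card κ * ∑ ω : ι → κ, Fintype.card κ' * ∑ ω' : ι' → κ', f ω ω' :=
        Helper84K9.GP.sum_update c (fun ω => Fintype.card κ' * ∑ ω' : ι' → κ', f ω ω')
    _ = _ := by
        rw [← Finset.mul_sum, mul_assoc]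

end Int2L

open Int2L

theorem int2 : S_INT2 := by
  intro ι ι' κ κ' _ _ _ _ _ _ E c c' 𝒢 r hind hr
  classical
  rw [nc]
  have hr' : ∀ a ∈ 𝒢, ∀ (ω : ι → κ) (ω' : ι' → κ'), (univ.filter (fun p : κ × κ' =>
      E a (Function.update ω (c a) p.1) (Function.update ω' (c' a) p.2))).card ≤ r := by
    intro a ha ω ω'
    rw [← nc]
    exact hr a ha ω ω'
  clear hr
  induction 𝒢 using Finset.induction_on with
  | empty => simp [Fintype.card_prod]
  | insert a 𝒢 ha ih =>
    have ih' := ih (fun b hb b' hb' hne => hind b (mem_insert_of_mem hb) b' (mem_insert_of_mem hb') hne)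
      (fun b hb => hr' b (mem_insert_of_mem hb))
    have step : (univ.filter (fun p : (ι → κ) × (ι' → κ') => ∀ b ∈ insert a 𝒢, E b p.1 p.2)).card *
        (Fintype.card κ * Fintype.card κ') ≤
        r * (univ.filter (fun p : (ι → κ) × (ι' → κ') => ∀ b ∈ 𝒢, E b p.1 p.2)).card := by
      have h1 : (univ.filter (fun p : (ι → κ) × (ι' → κ') => ∀ b ∈ insert a 𝒢, E b p.1 p.2)).card =
          ∑ p : (ι → κ) × (ι' → κ'), if (∀ b ∈ insert a 𝒢, E b p.1 p.2) then 1 else 0 := by
        rw [Finset.card_filter]
      rw [h1, mul_comm, ← sum_update2 (c a) (c' a)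
        (fun ω ω' => if (∀ b ∈ insert a 𝒢, E b ω ω') then 1 else 0)]
      rw [Finset.card_filter, Finset.mul_sum]
      apply Finset.sum_le_sum
      rintro ⟨ω, ω'⟩ _
      have h2 : ∀ q : κ × κ', (∀ b ∈ insert a 𝒢, E b (Function.update ω (c a) q.1)
          (Function.update ω' (c' a) q.2)) ↔
          (E a (Function.update ω (c a) q.1) (Function.update ω' (c' a) q.2) ∧
            ∀ b ∈ 𝒢, E b ω ω') := by
        intro q
        constructor
        · intro h
          refine ⟨h a (mem_insert_self _ _), fun b hb => ?_⟩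
          have hne : a ≠ b := fun h => ha (h ▸ hb)
          exact (hind a (mem_insert_self _ _) b (mem_insert_of_mem hb) hne ω ω' q.1 q.2).1
            (h b (mem_insert_of_mem hb))
        · rintro ⟨h1, h2⟩ b hb
          rcases mem_insert.1 hb with rfl | hb
          · exact h1
          · have hne : a ≠ b := fun h => ha (h ▸ hb)
            exact (hind a (mem_insert_self _ _) b (mem_insert_of_mem hb) hne ω ω' q.1 q.2).2
              (h2 b hb)
      by_cases hω : ∀ b ∈ 𝒢, E b ω ω'
      · rw [if_pos hω, mul_one]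
        have h3 := hr' a (mem_insert_self _ _) ω ω'
        rw [Finset.card_filter] at h3
        refine le_trans (Finset.sum_le_sum (fun q _ => ?_)) h3
        by_cases ht : E a (Function.update ω (c a) q.1) (Function.update ω' (c' a) q.2)
        · rw [if_pos ht]
          split_ifs <;> omega
        · rw [if_neg ht, if_neg (fun h => ht ((h2 q).1 h).1)]
      · rw [if_neg hω, mul_zero]
        apply le_of_eq
        apply Finset.sum_eq_zero
        intro q _
        rw [if_neg (fun h => hω ((h2 q).1 h).2)]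
    rw [card_insert_of_notMem ha, pow_succ, pow_succ]
    set X := (univ.filter (fun p : (ι → κ) × (ι' → κ') => ∀ b ∈ insert a 𝒢, E b p.1 p.2)).card
    set Y := (univ.filter (fun p : (ι → κ) × (ι' → κ') => ∀ b ∈ 𝒢, E b p.1 p.2)).card
    calc X * ((Fintype.card κ * Fintype.card κ') ^ 𝒢.card * (Fintype.card κ * Fintype.card κ'))
        = (X * (Fintype.card κ * Fintype.card κ')) *
          (Fintype.card κ * Fintype.card κ') ^ 𝒢.card := by ring
      _ ≤ (r * Y) * (Fintype.card κ * Fintype.card κ') ^ 𝒢.card := Nat.mul_le_mul_right _ step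
      _ = r * (Y * (Fintype.card κ * Fintype.card κ') ^ 𝒢.card) := by ring
      _ ≤ r * (r ^ 𝒢.card * (Fintype.card (ι → κ) * Fintype.card (ι' → κ'))) :=
          Nat.mul_le_mul_left _ ih'
      _ = r ^ 𝒢.card * r * (Fintype.card (ι → κ) * Fintype.card (ι' → κ')) := by ring

end Pool.Agent.Helper84K9.SG
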