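import Pool.Agent.Helper84K9.SG.Stm

/-!
# Sequential choice (leaf SEQ)
-/

set_option autoImplicit false

namespace Pool.Agent.Helper84K9.SG

open Finset

theorem seq : S_SEQ := by
  intro Ω _ _ Bad hBad
  classical
  -- the fibre of the bad set
  set fib : (i : ℕ) → Ω i → Finset (Ω (i + 1)) := fun i w =>
    univ.filter (fun w' => (w, w') ∈ Bad i) with hfib
  have hcard : ∀ i, ∑ w : Ω i, (fib i w).card = (Bad i).ncard := by
    intro i
    have h1 : (Bad i).ncard = (univ.filter (fun p : Ω i × Ω (i + 1) => p ∈ Bad i)).card := by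
      rw [← Set.ncard_coe_finset]
      congr 1
      ext p
      simp
    rw [h1, card_filter, Fintype.sum_prod_type]
    refine Finset.sum_congr rfl fun w _ => ?_
    rw [hfib, card_filter]
  -- the elements violating the invariant
  have hviol : ∀ i, 4 * (univ.filter (fun w : Ω i => Fintype.card (Ω (i + 1)) <
      2 * (fib i w).card)).card ≤ Fintype.card (Ω i) := by
    intro i
    set V := univ.filter (fun w : Ω i => Fintype.card (Ω (i + 1)) < 2 * (fib i w).card) with hV
    have hpos : 0 < Fintype.card (Ω (i + 1)) := Fintype.card_pos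
    have h1 : V.card * Fintype.card (Ω (i + 1)) ≤ 2 * (Bad i).ncard := by
      calc V.card * Fintype.card (Ω (i + 1)) = ∑ w ∈ V, Fintype.card (Ω (i + 1)) := by
            rw [Finset.sum_const, smul_eq_mul]
        _ ≤ ∑ w ∈ V, 2 * (fib i w).card := Finset.sum_le_sum fun w hw => (mem_filter.1 hw).2.le
        _ ≤ ∑ w, 2 * (fib i w).card :=
            Finset.sum_le_sum_of_subset (subset_univ _)
        _ = 2 * (Bad i).ncard := by rw [← Finset.mul_sum, hcard]
    have h2 : (4 * V.card) * Fintype.card (Ω (i + 1)) ≤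
        Fintype.card (Ω i) * Fintype.card (Ω (i + 1)) := by
      calc (4 * V.card) * Fintype.card (Ω (i + 1)) =
          4 * (V.card * Fintype.card (Ω (i + 1))) := by ring
        _ ≤ 4 * (2 * (Bad i).ncard) := Nat.mul_le_mul_left _ h1
        _ = 8 * (Bad i).ncard := by ring
        _ ≤ _ := hBad i
    exact Nat.le_of_mul_le_mul_right h2 hpos
  -- one step
  have hstep : ∀ i (w : Ω i), 2 * (fib i w).card ≤ Fintype.card (Ω (i + 1)) →
      ∃ w' : Ω (i + 1), (w, w') ∉ Bad i ∧
        2 * (fib (i + 1) w').card ≤ Fintype.card (Ω (i + 1 + 1)) := by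
    intro i w hw
    by_contra hcon
    push Not at hcon
    have hpos : 0 < Fintype.card (Ω (i + 1)) := Fintype.card_pos
    have h1 : (univ : Finset (Ω (i + 1))) ⊆ fib i w ∪
        univ.filter (fun w' : Ω (i + 1) => Fintype.card (Ω (i + 1 + 1)) <
          2 * (fib (i + 1) w').card) := by
      intro w' _
      by_cases h : (w, w') ∈ Bad i
      · exact mem_union_left _ (mem_filter.2 ⟨mem_univ _, h⟩)
      · exact mem_union_right _ (mem_filter.2 ⟨mem_univ _, hcon w' h⟩)
    have h2 := (card_le_card h1).trans (card_union_le _ _)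
    rw [Finset.card_univ] at h2
    have h3 := hviol (i + 1)
    omega
  have hzero : ∃ w : Ω 0, 2 * (fib 0 w).card ≤ Fintype.card (Ω (0 + 1)) := by
    by_contra hcon
    push Not at hcon
    have h1 : (univ.filter (fun w : Ω 0 => Fintype.card (Ω (0 + 1)) <
      2 * (fib 0 w).card)) = univ := filter_true_of_mem fun w _ => hcon w
    have h2 := hviol 0
    rw [h1, Finset.card_univ] at h2
    have hpos : 0 < Fintype.card (Ω 0) := Fintype.card_pos
    omega
  choose nxt hn1 hn2 using hstep
  let G : (i : ℕ) → {w : Ω i // 2 * (fib i w).card ≤ Fintype.card (Ω (i + 1))} := fun i =>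
    Nat.rec ⟨hzero.choose, hzero.choose_spec⟩ (fun i w => ⟨nxt i w.1 w.2, hn2 i w.1 w.2⟩) i
  exact ⟨fun i => (G i).1, fun i => hn1 i (G i).1 (G i).2⟩

end Pool.Agent.Helper84K9.SG
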