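import Pool.Agent.Helper84K9.SG.Stm

/-! Six term geometric progressions: assembly of the leaves. -/

set_option autoImplicit false

namespace Pool.Agent.Helper84K9.SG

open Finset
open Helper84K9.GP (F rough quad_F)

lemma ncard_biUnion_le {α β : Type} [Finite β] (I : Finset α) (N : α → Set β) :
    ({p | ∃ x ∈ I, p ∈ N x} : Set β).ncard ≤ ∑ x ∈ I, (N x).ncard := by
  classical
  induction I using Finset.induction_on with
  | empty => simp
  | insert a I ha ih =>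
    rw [Finset.sum_insert ha]
    have h1 : ({p | ∃ x ∈ insert a I, p ∈ N x} : Set β) = N a ∪ {p | ∃ x ∈ I, p ∈ N x} := by
      ext p
      simp
    rw [h1]
    exact (Set.ncard_union_le _ _).trans (Nat.add_le_add_left ih _)

lemma exp_small (l : ℕ) (hl : 3 ≤ l) : 8 * ((2 : ℝ) ^ l * Real.exp (-(2 * (l : ℝ)))) ≤ 1 := by
  have h1 : Real.exp (2 * (l : ℝ)) = (Real.exp 1) ^ (2 * l) := by
    rw [← Real.exp_nat_mul]; congr 1; push_cast; ring
  have h2 : (2 : ℝ) ≤ Real.exp 1 := by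
    have := Real.exp_one_gt_d9
    linarith
  have h3 : (2 : ℝ) ^ (2 * l) ≤ Real.exp (2 * (l : ℝ)) := by
    rw [h1]
    exact pow_le_pow_left₀ (by norm_num) h2 _
  have h4 : (8 : ℝ) ≤ 2 ^ l := by
    calc (8 : ℝ) = 2 ^ 3 := by norm_num
      _ ≤ 2 ^ l := pow_le_pow_right₀ (by norm_num) hl
  rw [Real.exp_neg, ← div_eq_mul_inv, ← mul_div_assoc, div_le_one (Real.exp_pos _)]
  calc 8 * (2 : ℝ) ^ l ≤ 2 ^ l * 2 ^ l := mul_le_mul_of_nonneg_right h4 (by positivity)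
    _ = 2 ^ (2 * l) := by rw [← pow_add]; congr 1; ring
    _ ≤ _ := h3

lemma rate (l n n' h h' R R' G : ℕ) (hR : 1 ≤ R) (hR' : 1 ≤ R') (h1 : R ≤ 4 * 8 ^ (4 * n) * h)
    (h2 : R' ≤ 4 * 8 ^ (4 * n') * h') (hn : n ≤ n') (hG : G = 128 * l * 8 ^ (8 * n')) :
    2 * (l : ℝ) ≤ (G : ℝ) * h * h' / (4 * R * R') := by
  have hR0 : (0 : ℝ) < R := by exact_mod_cast hR
  have hR0' : (0 : ℝ) < R' := by exact_mod_cast hR'
  rw [le_div_iff₀ (by positivity)]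
  have e1 : (R : ℝ) ≤ 4 * 8 ^ (4 * n') * h := by
    have e0 : R ≤ 4 * 8 ^ (4 * n') * h :=
      h1.trans (Nat.mul_le_mul_right _ (Nat.mul_le_mul_left _ (Nat.pow_le_pow_right (by norm_num) (by omega))))
    exact_mod_cast e0
  have e2 : (R' : ℝ) ≤ 4 * 8 ^ (4 * n') * h' := by exact_mod_cast h2
  have e3 : (R : ℝ) * R' ≤ (4 * 8 ^ (4 * n') * h) * (4 * 8 ^ (4 * n') * h') :=
    mul_le_mul e1 e2 hR0'.le (by positivity)
  have e4 : (8 : ℝ) ^ (4 * n') * 8 ^ (4 * n') = 8 ^ (8 * n') := by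
    rw [← pow_add]; congr 1; ring
  have hl : (0 : ℝ) ≤ l := Nat.cast_nonneg _
  calc 2 * (l : ℝ) * (4 * R * R') = 8 * l * (R * R') := by ring
    _ ≤ 8 * l * ((4 * 8 ^ (4 * n') * h) * (4 * 8 ^ (4 * n') * h')) :=
        mul_le_mul_of_nonneg_left e3 (by positivity)
    _ = (128 * l * (8 ^ (4 * n') * 8 ^ (4 * n'))) * h * h' := by ring
    _ = (G : ℝ) * h * h' := by rw [e4, hG]; push_cast; ring

theorem exists_set (hcol : S_COL) (hnoh : S_NOH) (hseq : S_SEQ) (hgp : S_GP6) (hpar : S_PAR) :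
    ∃ (A : Set ℕ) (i0 : ℕ), (∀ a ∈ A, 0 < a) ∧
      (∀ b : ℕ → ℕ, (∀ j < 6, b j ∈ A) → (∀ j, j + 2 < 6 → b j * b (j + 2) = b (j + 1) ^ 2) →
        ¬ b 0 < b 1) ∧
      (∀ x i : ℕ, i0 ≤ i → 8 ^ (i + 1) ≤ Nat.log 2 x → Nat.log 2 x < 8 ^ (i + 2) →
        ∃ a ∈ A, x ≤ a ∧ a < x + 2 * gp (i + 1)) := by
  classical
  obtain ⟨i0, hi01, hP⟩ := hpar
  -- the parameters of the scale `i0 + s`
  have hex : ∀ s : ℕ, ∃ (S : Set ℕ) (h : ℕ), QFree S ∧
      Windows S (8 ^ (i0 + s + 2)) ((8 ^ (i0 + s + 2)) ^ 4) h ∧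
      (8 ^ (i0 + s + 2)) ^ 4 ≤ 4 * 8 ^ (4 * dig (i0 + s)) * h := by
    intro s
    obtain ⟨p1, p2, p3, -, -, -⟩ := hP (i0 + s) (by omega)
    exact hcol (8 ^ (i0 + s + 2)) (dig (i0 + s)) p1
      (dvd_pow (by norm_num) (by omega)) p2 p3
  choose Sc hh hQ hW hhh using hex
  let l : ℕ → ℕ := fun s => 8 ^ (i0 + s + 2)
  let R : ℕ → ℕ := fun s => (8 ^ (i0 + s + 2)) ^ 4
  have hR1 : ∀ s, 1 ≤ R s := fun s => Nat.one_le_pow _ _ (Nat.pow_pos (by norm_num))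
  let Ω : ℕ → Type := fun s => Fin (2 ^ (l s)) → Fin (R s)
  haveI : ∀ s, NeZero (R s) := fun s => ⟨by have := hR1 s; omega⟩
  have iNe : ∀ s, Nonempty (Ω s) := fun s => ⟨fun _ => ⟨0, by have := hR1 s; omega⟩⟩
  let I : ℕ → Finset ℕ := fun s => (range (2 ^ (l s))).filter (fun x =>
    (2 * gp (i0 + s)) ^ 8 ≤ x ∧ x + gp (i0 + s) ≤ 2 ^ (l s))
  let Bad : (s : ℕ) → Set (Ω s × Ω (s + 1)) := fun s => {p | ∃ x ∈ I s,
    p ∈ NoHit (l s) (l (s + 1)) (R s) (R (s + 1)) (Sc s) (Sc (s + 1)) (gp (i0 + s)) x}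
  have hbad : ∀ s, 8 * (Bad s).ncard ≤ Fintype.card (Fin (2 ^ l s) → Fin (R s)) *
      Fintype.card (Fin (2 ^ l (s + 1)) → Fin (R (s + 1))) := by
    intro s
    have h1 : ((Bad s).ncard : ℝ) ≤ ∑ x ∈ I s,
        ((NoHit (l s) (l (s + 1)) (R s) (R (s + 1)) (Sc s) (Sc (s + 1)) (gp (i0 + s)) x).ncard : ℝ) := by
      exact_mod_cast ncard_biUnion_le (I s) (fun x =>
        NoHit (l s) (l (s + 1)) (R s) (R (s + 1)) (Sc s) (Sc (s + 1)) (gp (i0 + s)) x)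
    have hlpos : 3 ≤ l s := by
      have : 8 ^ 2 ≤ 8 ^ (i0 + s + 2) := Nat.pow_le_pow_right (by norm_num) (by omega)
      simp only [l]
      omega
    have hG20 : 20 ≤ gp (i0 + s) := by
      unfold gp
      have e1 : 1 ≤ 8 ^ (i0 + s + 2) := Nat.one_le_pow _ _ (by norm_num)
      have e2 : 1 ≤ 8 ^ (8 * dig (i0 + s + 1)) := Nat.one_le_pow _ _ (by norm_num)
      nlinarith [Nat.mul_le_mul e1 e2]
    have hcard : (0 : ℝ) ≤ (Fintype.card (Fin (2 ^ l s) → Fin (R s)) : ℝ) *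
        (Fintype.card (Fin (2 ^ l (s + 1)) → Fin (R (s + 1))) : ℝ) := by positivity
    have h2 : ∀ x ∈ I s,
        ((NoHit (l s) (l (s + 1)) (R s) (R (s + 1)) (Sc s) (Sc (s + 1)) (gp (i0 + s)) x).ncard : ℝ) ≤
        Real.exp (-(2 * (l s : ℝ))) * (Fintype.card (Fin (2 ^ l s) → Fin (R s)) *
          Fintype.card (Fin (2 ^ l (s + 1)) → Fin (R (s + 1)))) := by
      intro x hx
      obtain ⟨-, hx1, hx2⟩ := mem_filter.1 hx
      refine (hnoh (l s) (l (s + 1)) (R s) (R (s + 1)) (hh s) (hh (s + 1)) (Sc s) (Sc (s + 1))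
        (gp (i0 + s)) x (hR1 s) (hR1 (s + 1))
        (Nat.pow_le_pow_right (by norm_num) (by omega)) (hW s) (hW (s + 1)) hG20 hx1 hx2).trans ?_
      apply mul_le_mul_of_nonneg_right _ hcard
      apply Real.exp_le_exp.2
      apply neg_le_neg
      exact rate (l s) (dig (i0 + s)) (dig (i0 + (s + 1))) (hh s) (hh (s + 1)) (R s)
        (R (s + 1)) (gp (i0 + s)) (hR1 s) (hR1 (s + 1)) (hhh s) (hhh (s + 1))
        (hP (i0 + s) (by omega)).2.2.2.2.2 rfl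
    have h3 : ((Bad s).ncard : ℝ) ≤ (2 : ℝ) ^ (l s) * (Real.exp (-(2 * (l s : ℝ))) *
        (Fintype.card (Fin (2 ^ l s) → Fin (R s)) *
          Fintype.card (Fin (2 ^ l (s + 1)) → Fin (R (s + 1))))) := by
      refine h1.trans ((Finset.sum_le_sum h2).trans ?_)
      rw [Finset.sum_const, nsmul_eq_mul]
      apply mul_le_mul_of_nonneg_right _ (by positivity)
      have := Finset.card_filter_le (range (2 ^ (l s))) (fun x =>
        (2 * gp (i0 + s)) ^ 8 ≤ x ∧ x + gp (i0 + s) ≤ 2 ^ (l s))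
      rw [card_range] at this
      exact_mod_cast this
    have h4 : (8 : ℝ) * ((Bad s).ncard : ℝ) ≤ (Fintype.card (Fin (2 ^ l s) → Fin (R s)) : ℝ) *
          (Fintype.card (Fin (2 ^ l (s + 1)) → Fin (R (s + 1))) : ℝ) := by
      calc (8 : ℝ) * ((Bad s).ncard : ℝ) ≤ 8 * ((2 : ℝ) ^ (l s) * (Real.exp (-(2 * (l s : ℝ))) *
            (Fintype.card (Fin (2 ^ l s) → Fin (R s)) *
              Fintype.card (Fin (2 ^ l (s + 1)) → Fin (R (s + 1)))))) :=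
            mul_le_mul_of_nonneg_left h3 (by norm_num)
        _ = (8 * ((2 : ℝ) ^ (l s) * Real.exp (-(2 * (l s : ℝ))))) *
            (Fintype.card (Fin (2 ^ l s) → Fin (R s)) *
              Fintype.card (Fin (2 ^ l (s + 1)) → Fin (R (s + 1)))) := by ring
        _ ≤ 1 * (Fintype.card (Fin (2 ^ l s) → Fin (R s)) *
              Fintype.card (Fin (2 ^ l (s + 1)) → Fin (R (s + 1)))) :=
            mul_le_mul_of_nonneg_right (exp_small (l s) hlpos) hcard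
        _ = _ := one_mul _
    have h5 : 8 * (Bad s).ncard ≤ Fintype.card (Fin (2 ^ l s) → Fin (R s)) *
        Fintype.card (Fin (2 ^ l (s + 1)) → Fin (R (s + 1))) := by exact_mod_cast h4
    exact h5
  obtain ⟨w, hw⟩ := @hseq Ω (fun s => inferInstanceAs (Fintype (Fin (2 ^ (l s)) → Fin (R s)))) iNe Bad hbad
  let SS : ℕ → Set ℕ := fun i => {n | ∃ s, i = i0 + s ∧ F (w s) n ∈ Sc s}
  have hhit : ∀ s x : ℕ, (2 * gp (i0 + s)) ^ 8 ≤ x → x + gp (i0 + s) ≤ 2 ^ (8 ^ (i0 + s + 2)) →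
      ∃ n, x ≤ n ∧ n < x + gp (i0 + s) ∧ n ∈ SS (i0 + s) ∧ n ∈ SS (i0 + s + 1) := by
    intro s x hx1 hx2
    have hgpos : 0 < gp (i0 + s) := by
      unfold gp; positivity
    have hx3 : x ∈ I s := by
      rw [mem_filter, mem_range]
      refine ⟨?_, hx1, hx2⟩
      simp only [l]
      omega
    have h1 : ¬ (w s, w (s + 1)) ∈
        NoHit (l s) (l (s + 1)) (R s) (R (s + 1)) (Sc s) (Sc (s + 1)) (gp (i0 + s)) x := by
      intro h
      exact hw s ⟨x, hx3, h⟩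
    unfold NoHit at h1
    rw [Set.mem_setOf_eq] at h1
    push Not at h1
    obtain ⟨n, hn1, hn2, hn3, hn4⟩ := h1
    exact ⟨n, hn1, hn2, ⟨s, rfl, hn3⟩, ⟨s + 1, by omega, hn4⟩⟩
  refine ⟨{n | 0 < n ∧ ∃ i, i0 ≤ i ∧ 8 ^ (i + 1) ≤ Nat.log 2 n ∧ Nat.log 2 n < 8 ^ (i + 2) ∧
    n ∈ SS i ∧ n ∈ SS (i + 1)}, i0, fun a ha => ha.1, ?_, ?_⟩
  · intro b hb hbgp
    refine hgp i0 SS ?_ b hb hbgp
    intro i hi c hc hpos hlt hcgp
    by_contra hne
    obtain ⟨s, rfl⟩ := Nat.exists_eq_add_of_le hi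
    obtain ⟨A, B, C, hC, hj⟩ := quad_F (w s) 5 c hpos hlt (by norm_num) hcgp hne
    apply hQ s A B C hC
    intro j hj5
    obtain ⟨s', hs', hF⟩ := hc j hj5
    have : s' = s := by omega
    subst this
    exact ⟨F (w s') (c j), hF, (hj j hj5).symm⟩
  · intro x i hi h1 h2
    obtain ⟨s, rfl⟩ := Nat.exists_eq_add_of_le hi
    obtain ⟨-, -, -, hc1, hg1, -⟩ := hP (i0 + s) (by omega)
    obtain ⟨-, -, -, hc2, -, -⟩ := hP (i0 + s + 1) (by omega)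
    have hx0 : x ≠ 0 := by
      rintro rfl
      simp only [Nat.log_zero_right] at h1
      have : 0 < 8 ^ (i0 + s + 1) := by positivity
      omega
    have hxlow : 2 ^ (8 ^ (i0 + s + 1)) ≤ x := by
      calc 2 ^ (8 ^ (i0 + s + 1)) ≤ 2 ^ (Nat.log 2 x) := Nat.pow_le_pow_right (by norm_num) h1
        _ ≤ x := Nat.pow_log_le_self 2 hx0
    by_cases hcase : x + gp (i0 + s) ≤ 2 ^ (8 ^ (i0 + s + 2))
    · obtain ⟨n, hn1, hn2, hn3, hn4⟩ := hhit s x (hc1.trans hxlow) hcase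
      refine ⟨n, ⟨by omega, i0 + s, hi, ?_, ?_, hn3, hn4⟩, hn1, by omega⟩
      · exact h1.trans (Nat.log_mono_right hn1)
      · rw [Nat.log_lt_iff_lt_pow (by norm_num) (by omega)]
        omega
    · push Not at hcase
      have hgpos : 0 < gp (i0 + s + 1) := by unfold gp; positivity
      have hgle : gp (i0 + s + 1) ≤ 2 ^ (8 ^ (i0 + s + 2)) := by
        calc gp (i0 + s + 1) ≤ 2 * gp (i0 + s + 1) := by omega
          _ = (2 * gp (i0 + s + 1)) ^ 1 := (pow_one _).symm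
          _ ≤ (2 * gp (i0 + s + 1)) ^ 8 := Nat.pow_le_pow_right (by omega) (by norm_num)
          _ ≤ _ := hc2
      have hup : 2 ^ (8 ^ (i0 + s + 2)) + gp (i0 + s + 1) ≤ 2 ^ (8 ^ (i0 + s + 3)) := by
        calc 2 ^ (8 ^ (i0 + s + 2)) + gp (i0 + s + 1)
            ≤ 2 ^ (8 ^ (i0 + s + 2)) + 2 ^ (8 ^ (i0 + s + 2)) := by omega
          _ = 2 ^ (8 ^ (i0 + s + 2) + 1) := by rw [pow_succ]; ring
          _ ≤ 2 ^ (8 ^ (i0 + s + 3)) := by
              apply Nat.pow_le_pow_right (by norm_num)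
              have e1 : 8 ^ (i0 + s + 3) = 8 ^ (i0 + s + 2) * 8 := pow_succ _ _
              have e2 : 0 < 8 ^ (i0 + s + 2) := by positivity
              omega
      obtain ⟨n, hn1, hn2, hn3, hn4⟩ := hhit (s + 1) (2 ^ (8 ^ (i0 + s + 2))) hc2 hup
      have hxlt : x < 2 ^ (8 ^ (i0 + s + 2)) := by
        rwa [Nat.log_lt_iff_lt_pow (by norm_num) hx0] at h2
      have hn0 : n ≠ 0 := by
        have : 0 < 2 ^ (8 ^ (i0 + s + 2)) := by positivity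
        omega
      have hn2' : n < 2 ^ (8 ^ (i0 + s + 2)) + gp (i0 + s + 1) := hn2
      refine ⟨n, ⟨by omega, i0 + s + 1, by omega, ?_, ?_, hn3, hn4⟩, by omega, by omega⟩
      · have : Nat.log 2 (2 ^ (8 ^ (i0 + s + 2))) = 8 ^ (i0 + s + 2) := Nat.log_pow (by norm_num) _
        calc 8 ^ (i0 + s + 1 + 1) = Nat.log 2 (2 ^ (8 ^ (i0 + s + 2))) := this.symm
          _ ≤ _ := Nat.log_mono_right hn1
      · rw [Nat.log_lt_iff_lt_pow (by norm_num) hn0]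
        exact lt_of_lt_of_le hn2' hup

end Pool.Agent.Helper84K9.SG
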