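import Pool.Agent.Helper84K9.SG.Stm

/-!
# SG: [BEH] a Behrend set without five terms of a quadratic progression
-/

set_option autoImplicit false

namespace Pool.Agent.Helper84K9.SG

open Finset

namespace BehL

theorem map_lt (D : ℕ) : ∀ (n : ℕ) (y : Fin n → ℕ), (∀ i, y i < D) → Behrend.map D y < D ^ n
  | 0, y, _ => by rw [Behrend.map_zero]; exact Nat.one_pos
  | n + 1, y, h => by
    rw [Behrend.map_succ']
    have h1 := map_lt D n (y ∘ Fin.succ) (fun i => h _)
    have h2 := h 0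
    calc y 0 + Behrend.map D (y ∘ Fin.succ) * D < D + Behrend.map D (y ∘ Fin.succ) * D := by omega
      _ = (Behrend.map D (y ∘ Fin.succ) + 1) * D := by ring
      _ ≤ D ^ n * D := Nat.mul_le_mul_right _ h1
      _ = D ^ (n + 1) := (pow_succ _ _).symm

theorem sphere_lt {n d k : ℕ} {x : Fin n → ℕ} (hx : x ∈ Behrend.sphere n d k) (i : Fin n) : x i < d :=
  Behrend.mem_box.1 (Behrend.sphere_subset_box hx) i

theorem sphere_sum {n d k : ℕ} {x : Fin n → ℕ} (hx : x ∈ Behrend.sphere n d k) :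
    ∑ i, (x i : ℤ) ^ 2 = k := by
  have h := (Finset.mem_filter.1 hx).2
  exact_mod_cast h

/-- third differences -/
theorem third {n d k : ℕ} {x : ℕ → Fin n → ℕ} (hx : ∀ j < 5, x j ∈ Behrend.sphere n d k) {a b c e : ℕ}
    (ha : a < 5) (hb : b < 5) (hc : c < 5) (he : e < 5)
    (h : Behrend.map (8 * d) (x e) + 3 * Behrend.map (8 * d) (x b) =
      3 * Behrend.map (8 * d) (x c) + Behrend.map (8 * d) (x a)) (i : Fin n) :
    x e i + 3 * x b i = 3 * x c i + x a i := by
  have h1 : Behrend.map (8 * d) (x e + 3 • x b) = Behrend.map (8 * d) (3 • x c + x a) := by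
    rw [map_add, map_add, map_nsmul, map_nsmul, smul_eq_mul, smul_eq_mul]
    exact h
  have hlt : ∀ j < 5, x j i < d := fun j hj => sphere_lt (hx j hj) i
  have h2 := Behrend.map_injOn (n := n) (d := 8 * d) (x₁ := x e + 3 • x b) (x₂ := 3 • x c + x a)
    (fun i => by
      have h3 := sphere_lt (hx e he) i
      have h4 := sphere_lt (hx b hb) i
      simp only [Pi.add_apply, Pi.smul_apply, smul_eq_mul]
      omega)
    (fun i => by
      have h3 := sphere_lt (hx c hc) i
      have h4 := sphere_lt (hx a ha) i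
      simp only [Pi.add_apply, Pi.smul_apply, smul_eq_mul]
      omega) h1
  have h3 := congrFun h2 i
  simpa using h3

theorem all_eq {n : ℕ} {k : ℤ} (x : ℕ → Fin n → ℤ) (hx : ∀ j < 5, ∑ i, x j i ^ 2 = k)
    (h1 : ∀ i, x 3 i + 3 * x 1 i = 3 * x 2 i + x 0 i)
    (h2 : ∀ i, x 4 i + 3 * x 2 i = 3 * x 3 i + x 1 i) : ∀ j < 5, ∀ i, x j i = x 0 i := by
  have e3 : ∀ i, x 3 i = 3 * x 2 i - 3 * x 1 i + x 0 i := fun i => by linarith [h1 i]
  have e4 : ∀ i, x 4 i = 6 * x 2 i - 8 * x 1 i + 3 * x 0 i := fun i => by linarith [h1 i, h2 i]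
  have s1 : ∑ i, (x 2 i - 2 * x 1 i + x 0 i) ^ 2 = 0 := by
    have h3 : ∑ i, 6 * (x 2 i - 2 * x 1 i + x 0 i) ^ 2 =
        ∑ i, (x 0 i ^ 2 - 4 * x 1 i ^ 2 + 6 * x 2 i ^ 2 - 4 * x 3 i ^ 2 + x 4 i ^ 2) := by
      refine Finset.sum_congr rfl fun i _ => ?_
      rw [e3, e4]
      ring
    rw [Finset.sum_add_distrib, Finset.sum_sub_distrib, Finset.sum_add_distrib,
      Finset.sum_sub_distrib, ← Finset.mul_sum, ← Finset.mul_sum, ← Finset.mul_sum,
      ← Finset.mul_sum, hx 0 (by norm_num), hx 1 (by norm_num), hx 2 (by norm_num),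
      hx 3 (by norm_num), hx 4 (by norm_num)] at h3
    linarith
  have t1 : ∀ i, x 2 i - 2 * x 1 i + x 0 i = 0 := by
    intro i
    have h3 := (Finset.sum_eq_zero_iff_of_nonneg (fun i _ => sq_nonneg _)).1 s1 i (Finset.mem_univ i)
    exact pow_eq_zero_iff (two_ne_zero) |>.1 h3
  have s2 : ∑ i, (x 1 i - x 0 i) ^ 2 = 0 := by
    have h3 : ∑ i, 2 * (x 1 i - x 0 i) ^ 2 =
        ∑ i, (x 0 i ^ 2 - 2 * x 1 i ^ 2 + x 2 i ^ 2) := by
      refine Finset.sum_congr rfl fun i _ => ?_
      have e2 : x 2 i = 2 * x 1 i - x 0 i := by linarith [t1 i]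
      rw [e2]
      ring
    rw [Finset.sum_add_distrib, Finset.sum_sub_distrib, ← Finset.mul_sum, ← Finset.mul_sum,
      hx 0 (by norm_num), hx 1 (by norm_num), hx 2 (by norm_num)] at h3
    linarith
  have t2 : ∀ i, x 1 i = x 0 i := by
    intro i
    have h3 := (Finset.sum_eq_zero_iff_of_nonneg (fun i _ => sq_nonneg _)).1 s2 i (Finset.mem_univ i)
    have h4 := pow_eq_zero_iff (two_ne_zero) |>.1 h3
    linarith
  intro j hj i
  have a1 := t1 i
  have a2 := t2 i
  have a3 := e3 i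
  have a4 := e4 i
  interval_cases j
  · rfl
  · exact a2
  · linarith
  · linarith
  · linarith

end BehL

open BehL in
/-- BEH -/
theorem beh : S_BEH := by
  intro n hn
  obtain ⟨k, hk⟩ := Behrend.exists_large_sphere n (8 ^ n)
  have hD : 8 * 8 ^ n = 8 ^ (n + 1) := by rw [pow_succ, mul_comm]
  have hinj : Set.InjOn (Behrend.map (8 * 8 ^ n)) (Behrend.sphere n (8 ^ n) k : Set (Fin n → ℕ)) := by
    apply Behrend.map_injOn.mono
    intro x hx i
    have := sphere_lt (Finset.mem_coe.1 hx) i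
    omega
  refine ⟨(Behrend.sphere n (8 ^ n) k).image (Behrend.map (8 * 8 ^ n)), ?_, ?_, ?_⟩
  · intro t ht
    obtain ⟨x, hx, rfl⟩ := Finset.mem_image.1 ht
    have h1 : 8 * Behrend.map (8 * 8 ^ n) x = Behrend.map (8 * 8 ^ n) (8 • x) := by
      rw [map_nsmul, smul_eq_mul]
    rw [h1, show n * (n + 1) = (n + 1) * n by ring, pow_mul, ← hD]
    apply map_lt
    intro i
    have := sphere_lt hx i
    simp only [Pi.smul_apply, smul_eq_mul]
    omega
  · intro t ht h1 h2
    have hx : ∀ j, ∃ x : Fin n → ℕ, j < 5 → x ∈ Behrend.sphere n (8 ^ n) k ∧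
        Behrend.map (8 * 8 ^ n) x = t j := by
      intro j
      by_cases hj : j < 5
      · obtain ⟨x, hx, hxt⟩ := Finset.mem_image.1 (ht j hj)
        exact ⟨x, fun _ => ⟨hx, hxt⟩⟩
      · exact ⟨0, fun h => absurd h hj⟩
    choose x hx using hx
    have hxs : ∀ j < 5, x j ∈ Behrend.sphere n (8 ^ n) k := fun j hj => (hx j hj).1
    have hxt : ∀ j < 5, Behrend.map (8 * 8 ^ n) (x j) = t j := fun j hj => (hx j hj).2
    have h3 := third hxs (a := 0) (b := 1) (c := 2) (e := 3) (by norm_num) (by norm_num)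
      (by norm_num) (by norm_num) (by
        rw [hxt 0 (by norm_num), hxt 1 (by norm_num), hxt 2 (by norm_num), hxt 3 (by norm_num)]
        exact h1)
    have h4 := third hxs (a := 1) (b := 2) (c := 3) (e := 4) (by norm_num) (by norm_num)
      (by norm_num) (by norm_num) (by
        rw [hxt 1 (by norm_num), hxt 2 (by norm_num), hxt 3 (by norm_num), hxt 4 (by norm_num)]
        exact h2)
    have h5 := all_eq (k := k) (fun j i => (x j i : ℤ)) (fun j hj => sphere_sum (hxs j hj))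
      (fun i => by exact_mod_cast h3 i) (fun i => by exact_mod_cast h4 i)
    intro j hj
    rw [← hxt j hj, ← hxt 0 (by norm_num)]
    congr 1
    funext i
    exact_mod_cast h5 j hj i
  · rw [Finset.card_image_of_injOn hinj]
    have hn0 : (0 : ℝ) < n := by exact_mod_cast hn
    rw [div_le_iff₀ (by push_cast; positivity)] at hk
    have h1 : (((8 ^ n) ^ n : ℕ) : ℝ) ≤ (((Behrend.sphere n (8 ^ n) k).card * (n * (8 ^ n) ^ 2) : ℕ) : ℝ) := by
      push_cast
      push_cast at hk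
      exact hk
    have h2 : (8 ^ n) ^ n ≤ (Behrend.sphere n (8 ^ n) k).card * (n * (8 ^ n) ^ 2) := by
      exact_mod_cast h1
    rw [← pow_mul, ← pow_mul] at h2
    calc 8 ^ (n * n) ≤ _ := h2
      _ = n * 8 ^ (2 * n) * (Behrend.sphere n (8 ^ n) k).card := by
        rw [mul_comm n 2]
        ring

end Pool.Agent.Helper84K9.SG
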