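import Pool.Agent.Helper44K9.SG.Col

set_option autoImplicit false

/-! The colouring (written by helper44). -/

namespace Pool.Agent.Helper84K9.SG

theorem col : S_BEH → S_WIN → S_COL := Pool.Agent.Helper44K9.SG.col

end Pool.Agent.Helper84K9.SG
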