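import Pool.Agent.Helper84K9.SG.Stm

/-! Leaf GP6 (helper61) -/

set_option autoImplicit false

namespace Pool.Agent.Helper84K9.SG

open Finset

theorem gp6 : S_GP6 := by
  intro i0 S hS b hb hgp h01
  have hpos : ∀ j < 6, 0 < b j := fun j hj => (hb j hj).1
  obtain ⟨-, i, hi0, hi1, hi2, -⟩ := hb 1 (by omega)
  have hlast : Nat.log 2 (b 5) < 8 ^ (i + 3) := by
    rw [Nat.log_lt_iff_lt_pow (by norm_num) (hpos 5 (by omega)).ne']
    have h1 : b 5 ≤ b 1 ^ 5 := Helper84K9.GP.gp_le 6 b hpos hgp (by omega) 4 (by omega)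
    have h2 : b 1 < 2 ^ (Nat.log 2 (b 1) + 1) := Nat.lt_pow_succ_log_self (by norm_num) _
    calc b 5 ≤ b 1 ^ 5 := h1
      _ < (2 ^ (Nat.log 2 (b 1) + 1)) ^ 5 := Nat.pow_lt_pow_left h2 (by omega)
      _ = 2 ^ ((Nat.log 2 (b 1) + 1) * 5) := by rw [← pow_mul]
      _ ≤ 2 ^ (8 ^ (i + 3)) := by
          apply Nat.pow_le_pow_right (by norm_num)
          rw [pow_succ]
          exact Nat.mul_le_mul (by omega) (by omega)
  have hmono := Helper84K9.GP.gp_mono_le 6 b hpos hgp h01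
  have hlog : ∀ j, 1 ≤ j → j < 6 → Nat.log 2 (b j) < 8 ^ (i + 3) := by
    intro j hj1 hj2
    exact lt_of_le_of_lt (Nat.log_mono_right (hmono j 5 (by omega) (by omega))) hlast
  have hmem : ∀ j, 1 ≤ j → j < 6 → b j ∈ S (i + 1) := by
    intro j hj1 hj2
    obtain ⟨-, a, ha0, ha1, ha2, haS, haS'⟩ := hb j hj2
    have h3 : Nat.log 2 (b 1) ≤ Nat.log 2 (b j) := Nat.log_mono_right (hmono 1 j hj1 hj2)
    have h5 : i + 1 < a + 2 := (Nat.pow_lt_pow_iff_right (by omega : 1 < 8)).1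
      (lt_of_le_of_lt (hi1.trans h3) ha2)
    have h6 : a + 1 < i + 3 := (Nat.pow_lt_pow_iff_right (by omega : 1 < 8)).1
      (lt_of_le_of_lt ha1 (hlog j hj1 hj2))
    rcases (by omega : a = i ∨ a = i + 1) with rfl | rfl
    · exact haS'
    · exact haS
  have h := hS (i + 1) (by omega) (fun j => b (1 + j))
    (fun j hj => hmem (1 + j) (by omega) (by omega)) (fun j hj => hpos (1 + j) (by omega))
    (fun j hj => by
      show b (1 + j) < 2 ^ (8 ^ (i + 1 + 2))
      rw [← Nat.log_lt_iff_lt_pow (by norm_num) (hpos (1 + j) (by omega)).ne']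
      exact hlog (1 + j) (by omega) (by omega))
    (fun j hj => hgp (1 + j) (by omega))
  have h2 := Helper84K9.GP.gp_mono 6 b hpos hgp h01 1 (by omega)
  have h3 : b 1 = b 2 := h
  have h4 : b 1 < b 2 := h2
  omega

end Pool.Agent.Helper84K9.SG

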