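import Pool.Agent.Helper84K9.SG.Stm

/-! Leaf NOH: the number of the pairs of weights without a hit in an interval. -/

set_option autoImplicit false

namespace Pool.Agent.Helper84K9.SG

open Finset
open Helper84K9.GP (F rough F_le F_update F_update_zero rough_card)

namespace NohL

/-- the number of the weights `t` with the value in `S` -/
lemma good_card {l R h : ℕ} {S : Set ℕ} (hW : Windows S l R h) (A v : ℕ) (hv : 1 ≤ v)
    (hM : A + v ^ 2 * R < R * l ^ 2 + 1) :
    h ≤ {t : Fin R | A + v ^ 2 * (t.val + 1) ∈ S}.ncard := by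
  classical
  have h1 := hW A v hv hM (((univ : Finset (Fin R)).filter
    (fun t => A + v ^ 2 * (t.val + 1) ∈ S)).image (fun t => t.val + 1)) (by
      intro t ht hS
      rw [mem_Icc] at ht
      rw [Finset.mem_image]
      refine ⟨⟨t - 1, by omega⟩, ?_, ?_⟩
      · rw [mem_filter]
        refine ⟨mem_univ _, ?_⟩
        have : (t - 1) + 1 = t := by omega
        simp only [this]
        exact hS
      · simp only
        omega)
  refine h1.trans (Finset.card_image_le.trans (le_of_eq ?_))
  rw [← Set.ncard_coe_finset]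
  congr 1
  ext t
  simp

/-- complement of a product -/
lemma compl_card {κ κ' : Type} [Fintype κ] [Fintype κ'] (A : Set κ) (B : Set κ') (h h' : ℕ)
    (hA : h ≤ A.ncard) (hB : h' ≤ B.ncard) :
    {p : κ × κ' | ¬ (p.1 ∈ A ∧ p.2 ∈ B)}.ncard ≤ Fintype.card κ * Fintype.card κ' - h * h' := by
  have h1 : {p : κ × κ' | ¬ (p.1 ∈ A ∧ p.2 ∈ B)} = (A ×ˢ B)ᶜ := by
    ext p
    simp [Set.mem_prod]
  rw [h1, Set.ncard_compl _ (Set.toFinite _), Set.ncard_prod, Nat.card_eq_fintype_card,
    Fintype.card_prod]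
  exact Nat.sub_le_sub_left (Nat.mul_le_mul hA hB) _

end NohL

open NohL

theorem noh : S_INT2 → S_NOH := by
  intro hI l l' R R' h h' S S' G x hR hR' hll hW hW' hG20 hx1 hx2
  classical
  have hl2 : (2 : ℕ) ^ l ≤ 2 ^ l' := Nat.pow_le_pow_right (by norm_num) hll
  have hxpos : 0 < x := lt_of_lt_of_le (Nat.pow_pos (by omega)) hx1
  have hmem : ∀ n ∈ rough G x, x ≤ n ∧ n < x + G ∧ ∃ p : ℕ, p < 2 ^ l ∧ p.Prime ∧ G < p ∧
      p ∣ n := by
    intro n hn
    unfold rough at hn
    obtain ⟨hn1, p, hp, hpG, hpn⟩ := mem_filter.1 hn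
    obtain ⟨hn2, hn3⟩ := mem_Ico.1 hn1
    have hpn' := Nat.le_of_dvd (by omega) hpn
    exact ⟨hn2, hn3, p, by omega, hp, hpG, hpn⟩
  obtain ⟨d, hd⟩ : ∃ d : ℕ → ℕ, ∀ n ∈ rough G x, d n < 2 ^ l ∧ (d n).Prime ∧ G < d n ∧ d n ∣ n := by
    refine ⟨fun n => if h : n ∈ rough G x then (hmem n h).2.2.choose else 0, fun n hn => ?_⟩
    simp only [dif_pos hn]
    exact (hmem n hn).2.2.choose_spec
  obtain ⟨c, hc⟩ : ∃ c : ℕ → Fin (2 ^ l), ∀ n ∈ rough G x, (c n).val = d n :=
    ⟨fun n => if h : d n < 2 ^ l then ⟨d n, h⟩ else ⟨0, by positivity⟩, fun n hn => by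
      simp only [dif_pos (hd n hn).1]⟩
  obtain ⟨c', hc'⟩ : ∃ c : ℕ → Fin (2 ^ l'), ∀ n ∈ rough G x, (c n).val = d n :=
    ⟨fun n => if h : d n < 2 ^ l' then ⟨d n, h⟩ else ⟨0, by positivity⟩, fun n hn => by
      have h3 : d n < 2 ^ l' := lt_of_lt_of_le (hd n hn).1 hl2
      simp only [dif_pos h3]⟩
  have hpriv : ∀ a ∈ rough G x, ∀ a' ∈ rough G x, a ≠ a' → a'.factorization (d a) = 0 := by
    intro a ha a' ha' hne
    apply Nat.factorization_eq_zero_of_not_dvd
    intro hdv
    obtain ⟨-, -, hcG, hca⟩ := hd a ha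
    obtain ⟨ha1, ha2, -⟩ := hmem a ha
    obtain ⟨ha1', ha2', -⟩ := hmem a' ha'
    rcases Nat.lt_or_ge a a' with hlt | hge
    · have h4 := Nat.dvd_sub hdv hca
      have h5 := Nat.le_of_dvd (by omega) h4
      omega
    · have h4 := Nat.dvd_sub hca hdv
      have h5 := Nat.le_of_dvd (by omega) h4
      omega
  have hv : ∀ a ∈ rough G x, 1 ≤ a.factorization (d a) := by
    intro a ha
    obtain ⟨-, hcp, -, hca⟩ := hd a ha
    obtain ⟨ha1, -, -⟩ := hmem a ha
    exact Nat.succ_le_iff.2 (hcp.factorization_pos_of_dvd (by omega) hca)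
  have hmain := hI (Fin (2 ^ l)) (Fin (2 ^ l')) (Fin R) (Fin R')
    (fun n ω ω' => ¬ (F ω n ∈ S ∧ F ω' n ∈ S')) c c' (rough G x) (R * R' - h * h') (by
      intro a ha a' ha' hne ω ω' t t'
      rw [F_update_zero ω (c a) t a' (by rw [hc a ha]; exact hpriv a ha a' ha' hne),
        F_update_zero ω' (c' a) t' a' (by rw [hc' a ha]; exact hpriv a ha a' ha' hne)]) (by
      intro a ha ω ω'
      obtain ⟨ha1, ha2, -⟩ := hmem a ha
      have hM : (∑ p ∈ univ.erase (c a), ((ω p).val + 1) * (a.factorization p.val) ^ 2) +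
          (a.factorization (d a)) ^ 2 * R < R * l ^ 2 + 1 := by
        have h3 := F_le (Function.update ω (c a) ⟨R - 1, by omega⟩) a (by omega) (by omega)
        rw [F_update, hc a ha] at h3
        have h4 : (R - 1) + 1 = R := by omega
        simp only [h4] at h3
        omega
      have hM' : (∑ p ∈ univ.erase (c' a), ((ω' p).val + 1) * (a.factorization p.val) ^ 2) +
          (a.factorization (d a)) ^ 2 * R' < R' * l' ^ 2 + 1 := by
        have h3 := F_le (Function.update ω' (c' a) ⟨R' - 1, by omega⟩) a (by omega) (by omega)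
        rw [F_update, hc' a ha] at h3
        have h4 : (R' - 1) + 1 = R' := by omega
        simp only [h4] at h3
        omega
      have h5 := compl_card _ _ h h' (good_card hW _ _ (hv a ha) hM)
        (good_card hW' _ _ (hv a ha) hM')
      rw [Fintype.card_fin, Fintype.card_fin] at h5
      refine le_trans (le_of_eq ?_) h5
      congr 1
      ext p
      simp only [Set.mem_ofPred_eq]
      rw [F_update, F_update, hc a ha, hc' a ha])
  rw [Fintype.card_fin, Fintype.card_fin] at hmain
  have hcount := rough_card G x hG20 hx1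
  have hne : (rough G x).Nonempty := by
    rw [← Finset.card_pos]
    omega
  -- the bounds for `h` and `h'`
  obtain ⟨a, ha⟩ := hne
  have hb : h ≤ R ∧ h' ≤ R' := by
    obtain ⟨ha1, ha2, -⟩ := hmem a ha
    have hv1 : 1 ≤ a.factorization (d a) := hv a ha
    constructor
    · have hM : (∑ p ∈ univ.erase (c a), (((fun _ => (⟨0, by omega⟩ : Fin R)) p : Fin R).val + 1) *
          (a.factorization p.val) ^ 2) +
          (a.factorization (d a)) ^ 2 * R < R * l ^ 2 + 1 := by
        have h3 := F_le (Function.update (fun _ => (⟨0, by omega⟩ : Fin R)) (c a)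
          ⟨R - 1, by omega⟩) a (by omega) (by omega)
        rw [F_update, hc a ha] at h3
        have h4 : (R - 1) + 1 = R := by omega
        simp only [h4] at h3
        simp only
        omega
      have h6 := good_card hW _ _ hv1 hM
      refine h6.trans ((Set.ncard_le_card _).trans (le_of_eq ?_))
      rw [Nat.card_eq_fintype_card, Fintype.card_fin]
    · have hM : (∑ p ∈ univ.erase (c' a), (((fun _ => (⟨0, by omega⟩ : Fin R')) p : Fin R').val + 1) *
          (a.factorization p.val) ^ 2) +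
          (a.factorization (d a)) ^ 2 * R' < R' * l' ^ 2 + 1 := by
        have h3 := F_le (Function.update (fun _ => (⟨0, by omega⟩ : Fin R')) (c' a)
          ⟨R' - 1, by omega⟩) a (by omega) (by omega)
        rw [F_update, hc' a ha] at h3
        have h4 : (R' - 1) + 1 = R' := by omega
        simp only [h4] at h3
        simp only
        omega
      have h6 := good_card hW' _ _ hv1 hM
      refine h6.trans ((Set.ncard_le_card _).trans (le_of_eq ?_))
      rw [Nat.card_eq_fintype_card, Fintype.card_fin]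
  have hsub : (NoHit l l' R R' S S' G x).ncard ≤
      {p : (Fin (2 ^ l) → Fin R) × (Fin (2 ^ l') → Fin R') |
        ∀ a ∈ rough G x, ¬ (F p.1 a ∈ S ∧ F p.2 a ∈ S')}.ncard := by
    apply Set.ncard_le_ncard _ (Set.toFinite _)
    intro p hp n hn
    obtain ⟨h7, h8, -⟩ := hmem n hn
    exact hp n h7 h8
  set k := (rough G x).card with hk
  set Z := (NoHit l l' R R' S S' G x).ncard with hZ
  set N : ℕ := Fintype.card (Fin (2 ^ l) → Fin R) * Fintype.card (Fin (2 ^ l') → Fin R') with hN
  have hmain' : Z * (R * R') ^ k ≤ (R * R' - h * h') ^ k * N :=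
    (Nat.mul_le_mul_right _ hsub).trans hmain
  have hRR : (0 : ℝ) < (R : ℝ) * R' := by
    have h9 : (0 : ℝ) < R := by exact_mod_cast hR
    have h10 : (0 : ℝ) < R' := by exact_mod_cast hR'
    positivity
  have hle : h * h' ≤ R * R' := Nat.mul_le_mul hb.1 hb.2
  set y : ℝ := (h : ℝ) * h' / (R * R') with hy
  have hy0 : 0 ≤ y := by positivity
  have hy1 : y ≤ 1 := by
    rw [hy, div_le_one hRR]
    exact_mod_cast hle
  have hreal : (Z : ℝ) ≤ (1 - y) ^ k * N := by
    have h11 : (Z : ℝ) * ((R : ℝ) * R') ^ k ≤ ((R : ℝ) * R' - h * h') ^ k * N := by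
      have h12 : ((R * R' - h * h' : ℕ) : ℝ) = (R : ℝ) * R' - h * h' := by
        rw [Nat.cast_sub hle]
        push_cast
        ring
      rw [← h12]
      exact_mod_cast hmain'
    have h13 : ((R : ℝ) * R' - h * h') ^ k = (1 - y) ^ k * ((R : ℝ) * R') ^ k := by
      rw [← mul_pow]
      congr 1
      rw [hy]
      field_simp
    rw [h13] at h11
    have h14 : (0 : ℝ) < ((R : ℝ) * R') ^ k := pow_pos hRR k
    rw [← mul_le_mul_iff_left₀ h14]
    linarith
  have hN' : ((Fintype.card (Fin (2 ^ l) → Fin R) : ℝ) * Fintype.card (Fin (2 ^ l') → Fin R')) =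
      (N : ℝ) := by
    rw [hN]
    push_cast
    ring
  rw [hN']
  refine hreal.trans (mul_le_mul_of_nonneg_right ?_ (Nat.cast_nonneg _))
  calc (1 - y) ^ k ≤ (Real.exp (-y)) ^ k := by
        apply pow_le_pow_left₀ (by linarith)
        have := Real.add_one_le_exp (-y)
        linarith
    _ = Real.exp (-((k : ℝ) * y)) := by
        rw [← Real.exp_nat_mul]
        congr 1
        ring
    _ ≤ Real.exp (-((G : ℝ) * h * h' / (4 * R * R'))) := by
        apply Real.exp_le_exp.2
        apply neg_le_neg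
        have h15 : (G : ℝ) ≤ 4 * k := by exact_mod_cast hcount
        have h16 : (G : ℝ) * h * h' / (4 * R * R') = (G : ℝ) / 4 * y := by
          rw [hy]
          field_simp
        rw [h16]
        apply mul_le_mul_of_nonneg_right _ hy0
        linarith

end Pool.Agent.Helper84K9.SG
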