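import Pool.Agent.Helper84K9.SG.Stm

/-!
# [PAR] and [REAL]: the parameters
-/

set_option autoImplicit false

namespace Pool.Agent.Helper84K9.SG

namespace ParL

lemma dig_mono {i j : ℕ} (h : i ≤ j) : dig i ≤ dig j := by
  unfold dig
  have := Nat.sqrt_le_sqrt (show 6 * (i + 2) ≤ 6 * (j + 2) by omega)
  omega

/-- `4 dig i + 1 ≤ i` for large `i` -/
lemma dig_le (i : ℕ) (hi : 200 ≤ i) : 4 * dig i + 1 ≤ i := by
  unfold dig
  have h1 : Nat.sqrt (6 * (i + 2)) * Nat.sqrt (6 * (i + 2)) ≤ 6 * (i + 2) := Nat.sqrt_le _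
  by_contra hcon
  push Not at hcon
  have h2 : i < 4 * Nat.sqrt (6 * (i + 2)) + 5 := by omega
  generalize Nat.sqrt (6 * (i + 2)) = s at *
  nlinarith

end ParL

open ParL

theorem par : S_PAR := by
  refine ⟨1000, by norm_num, fun i hi => ⟨?_, ?_, ?_, ?_, ?_, ?_⟩⟩
  · unfold dig; omega
  · have h1 := dig_le i (by omega)
    have h2 : 80 * 8 ^ (4 * dig i) < 8 ^ (4 * dig i + 3) := by
      rw [pow_add]
      have : 0 < 8 ^ (4 * dig i) := by positivity
      omega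
    exact h2.trans_le (Nat.pow_le_pow_right (by norm_num) (by omega))
  · have h1 : 6 * (i + 2) < dig i * dig i := Nat.lt_succ_sqrt _
    have h2 : (8 ^ (i + 2)) ^ 6 = 8 ^ (6 * (i + 2)) := by rw [← pow_mul]; ring_nf
    have h3 : 8 ^ (6 * (i + 2) + 1) ≤ 8 ^ (dig i * (dig i + 1)) := by
      apply Nat.pow_le_pow_right (by norm_num)
      nlinarith
    rw [h2]
    have h4 : 0 < 8 ^ (6 * (i + 2)) := by positivity
    rw [pow_succ] at h3
    omega
  · have h1 := dig_le (i + 1) (by omega)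
    obtain ⟨j, rfl⟩ : ∃ j, i = j + 2 := ⟨i - 2, by omega⟩
    have e1 : (8 : ℕ) ^ (j + 2 + 2) = 2 ^ (3 * (j + 2 + 2)) := by
      rw [show (8 : ℕ) = 2 ^ 3 by norm_num, ← pow_mul]
    have e2 : (8 : ℕ) ^ (8 * dig (j + 2 + 1)) = 2 ^ (24 * dig (j + 2 + 1)) := by
      have : (8 : ℕ) ^ (8 * dig (j + 2 + 1)) = (2 ^ 3) ^ (8 * dig (j + 2 + 1)) := by norm_num
      rw [this, ← pow_mul]
      congr 1
      ring
    have h2 : 2 * gp (j + 2) = 2 ^ (8 + 3 * (j + 2 + 2) + 24 * dig (j + 2 + 1)) := by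
      unfold gp
      rw [e1, e2, pow_add 2 (8 + 3 * (j + 2 + 2)), pow_add 2 8]
      norm_num
      ring
    rw [h2, ← pow_mul]
    apply Nat.pow_le_pow_right (by norm_num)
    have h3 : j < 8 ^ j := Nat.lt_pow_self (by norm_num)
    have h4 : 8 ^ (j + 2 + 1) = 512 * 8 ^ j := by ring
    rw [h4]
    omega
  · unfold gp
    have h1 : 8 ^ (i + 2) ≤ 8 ^ (i + 1 + 2) := Nat.pow_le_pow_right (by norm_num) (by omega)
    have h2 : 8 ^ (8 * dig (i + 1)) ≤ 8 ^ (8 * dig (i + 1 + 1)) :=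
      Nat.pow_le_pow_right (by norm_num) (Nat.mul_le_mul_left 8 (dig_mono (by omega)))
    exact Nat.mul_le_mul (Nat.mul_le_mul_left 128 h1) h2
  · exact dig_mono (by omega)

theorem real : S_REAL := by
  have l2a := Real.log_two_gt_d9
  have l2b := Real.log_two_lt_d9
  have l8 : Real.log 8 = 3 * Real.log 2 := by
    rw [show (8 : ℝ) = 2 ^ 3 by norm_num, Real.log_pow]
    norm_num
  refine ⟨8192 * Real.exp 17, by positivity, fun i y hy => ?_⟩
  have hy0 : 0 < y := lt_of_lt_of_le (by positivity) hy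
  have hi0 : (0 : ℝ) ≤ i := Nat.cast_nonneg i
  have hL : ((i : ℝ) + 1) * 2 ≤ Real.log y := by
    have h1 : Real.log ((8 : ℝ) ^ (i + 1)) ≤ Real.log y := Real.log_le_log (by positivity) hy
    rw [Real.log_pow] at h1
    push_cast at h1
    rw [l8] at h1
    nlinarith
  have hL0 : 0 ≤ Real.log y := by linarith
  have hs : Real.sqrt (6 * ((i : ℝ) + 4)) ≤ 4 * Real.sqrt (Real.log y) := by
    rw [show (4 : ℝ) * Real.sqrt (Real.log y) = Real.sqrt (16 * Real.log y) by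
      rw [Real.sqrt_mul (by norm_num), show (16 : ℝ) = 4 ^ 2 by norm_num,
        Real.sqrt_sq (by norm_num)]]
    apply Real.sqrt_le_sqrt
    linarith
  have hd : (dig (i + 2) : ℝ) ≤ 4 * Real.sqrt (Real.log y) + 1 := by
    unfold dig
    push_cast
    have h1 : ((Nat.sqrt (6 * (i + 2 + 2)) : ℕ) : ℝ) ≤ Real.sqrt ((6 * (i + 2 + 2) : ℕ) : ℝ) :=
      Real.nat_sqrt_le_real_sqrt
    push_cast at h1
    rw [show (6 : ℝ) * ((i : ℝ) + 2 + 2) = 6 * ((i : ℝ) + 4) by ring] at h1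
    linarith
  set s := Real.sqrt (Real.log y) with hsd
  have hs0 : 0 ≤ s := Real.sqrt_nonneg _
  have he : ((8 : ℝ)) ^ (8 * dig (i + 2)) ≤ Real.exp 17 * Real.exp (68 * s) := by
    have h1 : ((8 : ℝ)) ^ (8 * dig (i + 2)) = Real.exp (((8 * dig (i + 2) : ℕ) : ℝ) * Real.log 8) := by
      rw [Real.exp_nat_mul, Real.exp_log (by norm_num)]
    rw [h1, ← Real.exp_add]
    apply Real.exp_le_exp.2
    push_cast
    rw [l8]
    have hd0 : (0 : ℝ) ≤ dig (i + 2) := Nat.cast_nonneg _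
    nlinarith
  have hg : (gp (i + 1) : ℝ) = 8192 * (8 : ℝ) ^ (i + 1) * (8 : ℝ) ^ (8 * dig (i + 2)) := by
    unfold gp
    push_cast
    rw [show i + 1 + 1 = i + 2 by ring, show i + 1 + 2 = (i + 1) + 2 by ring, pow_add _ (i + 1) 2]
    ring
  rw [hg]
  have h1 : Real.exp (68 * s) ≤ Real.exp (8192 * Real.exp 17 * s) := by
    apply Real.exp_le_exp.2
    have h2 : (1 : ℝ) ≤ Real.exp 17 := Real.one_le_exp (by norm_num)
    have h3 : (68 : ℝ) ≤ 8192 * Real.exp 17 := by linarith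
    exact mul_le_mul_of_nonneg_right h3 hs0
  calc 8192 * (8 : ℝ) ^ (i + 1) * (8 : ℝ) ^ (8 * dig (i + 2))
      ≤ 8192 * y * (Real.exp 17 * Real.exp (8192 * Real.exp 17 * s)) := by
        apply mul_le_mul _ (he.trans _) (by positivity) (by positivity)
        · linarith
        · exact mul_le_mul_of_nonneg_left h1 (Real.exp_pos _).le
    _ = _ := by ring

end Pool.Agent.Helper84K9.SG
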