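import Pool.Agent.Helper84K9.SG.Stm

/-! Leaf REAL (helper61) -/

set_option autoImplicit false

namespace Pool.Agent.Helper84K9.SG

open Finset

theorem real_ : S_REAL := by
  have hpow : ∀ N : ℕ, (8 : ℝ) ^ N = Real.exp ((N : ℝ) * Real.log 8) := by
    intro N
    rw [Real.exp_nat_mul, Real.exp_log (by norm_num)]
  have hlog1 : (1 : ℝ) ≤ Real.log 8 := by
    have h : Real.log 8 = 3 * Real.log 2 := by
      rw [show (8 : ℝ) = 2 ^ 3 by norm_num, Real.log_pow]
      norm_num
    rw [h]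
    have := Real.log_two_gt_d9
    linarith
  have hlog7 : Real.log 8 ≤ 7 := by
    have := Real.log_le_sub_one_of_pos (by norm_num : (0 : ℝ) < 8)
    linarith
  refine ⟨8192 * 8 ^ 8, by positivity, fun i y hy => ?_⟩
  have hy0 : (0 : ℝ) < y := lt_of_lt_of_le (by positivity) hy
  have hly : ((i : ℝ) + 1) * Real.log 8 ≤ Real.log y := by
    have h := Real.log_le_log (by positivity) hy
    rw [Real.log_pow] at h
    push_cast at h
    exact h
  have hly1 : (i : ℝ) + 1 ≤ Real.log y := by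
    have h0 : (0 : ℝ) ≤ (i : ℝ) + 1 := by positivity
    nlinarith
  have hs0 : 0 ≤ Real.sqrt (Real.log y) := Real.sqrt_nonneg _
  have hs2 : Real.sqrt (Real.log y) ^ 2 = Real.log y := Real.sq_sqrt (by
    have : (0 : ℝ) ≤ i := Nat.cast_nonneg i
    linarith)
  have hd : (dig (i + 2) : ℝ) ≤ 5 * Real.sqrt (Real.log y) + 1 := by
    have h1 : (dig (i + 2) : ℝ) = ((Nat.sqrt (6 * (i + 2 + 2)) : ℕ) : ℝ) + 1 := by
      unfold dig
      push_cast
      rfl
    rw [h1]
    have h2 : ((Nat.sqrt (6 * (i + 2 + 2)) : ℕ) : ℝ) ≤ 5 * Real.sqrt (Real.log y) := by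
      refine le_trans Real.nat_sqrt_le_real_sqrt ?_
      rw [Real.sqrt_le_iff]
      refine ⟨by positivity, ?_⟩
      push_cast
      rw [mul_pow, hs2]
      have : (0 : ℝ) ≤ i := Nat.cast_nonneg i
      linarith
    linarith
  have e1 : (gp (i + 1) : ℝ) = 128 * (64 * (8 : ℝ) ^ (i + 1)) * 8 ^ (8 * dig (i + 2)) := by
    unfold gp
    push_cast
    ring
  have e2 : (8 : ℝ) ^ (8 * dig (i + 2)) ≤
      8 ^ 8 * Real.exp (8192 * 8 ^ 8 * Real.sqrt (Real.log y)) := by
    rw [hpow (8 * dig (i + 2)), hpow 8, ← Real.exp_add]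
    apply Real.exp_le_exp.2
    push_cast
    have h3 : (8 * (dig (i + 2) : ℝ)) * Real.log 8 ≤
        (8 * (5 * Real.sqrt (Real.log y) + 1)) * Real.log 8 := by
      apply mul_le_mul_of_nonneg_right _ (by linarith)
      linarith
    have h4 : 40 * Real.log 8 * Real.sqrt (Real.log y) ≤
        8192 * Real.exp (8 * Real.log 8) * Real.sqrt (Real.log y) := by
      apply mul_le_mul_of_nonneg_right _ hs0
      have h5 : (1 : ℝ) ≤ Real.exp (8 * Real.log 8) := Real.one_le_exp (by linarith)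
      linarith
    linarith
  calc (gp (i + 1) : ℝ) = 128 * (64 * (8 : ℝ) ^ (i + 1)) * 8 ^ (8 * dig (i + 2)) := e1
    _ ≤ 128 * (64 * y) * (8 ^ 8 * Real.exp (8192 * 8 ^ 8 * Real.sqrt (Real.log y))) := by
        apply mul_le_mul _ e2 (by positivity) (by positivity)
        linarith
    _ = 8192 * 8 ^ 8 * y * Real.exp (8192 * 8 ^ 8 * Real.sqrt (Real.log y)) := by ring

end Pool.Agent.Helper84K9.SG

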