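import Pool.Agent.Helper84K9.SG.Asm

/-! Six term geometric progressions: the real version of the assembly. -/

set_option autoImplicit false

namespace Pool.Agent.Helper84K9.SG

/-- The set: real version. -/
theorem exists_set_real (hcol : S_COL) (hnoh : S_NOH) (hseq : S_SEQ) (hgp6 : S_GP6) (hpar : S_PAR)
    (hreal : S_REAL) :
    ∃ A : Set ℕ, (∀ a ∈ A, 0 < a) ∧
      (∀ b : ℕ → ℕ, (∀ j < 6, b j ∈ A) →
        (∀ j, j + 2 < 6 → b j * b (j + 2) = b (j + 1) ^ 2) → ¬ b 0 < b 1) ∧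
      ∃ C : ℝ, ∀ x : ℝ, 2 ≤ x → ∃ a ∈ A, x ≤ (a : ℝ) ∧
        (a : ℝ) ≤ x + C * Real.log x * Real.exp (C * Real.sqrt (Real.log (Real.log x))) := by
  obtain ⟨A, i0, hpos, hgp, hgap⟩ := exists_set hcol hnoh hseq hgp6 hpar
  obtain ⟨C0, hC0, hr⟩ := hreal
  refine ⟨A, hpos, hgp, ?_⟩
  have hlog2 : 0 < Real.log 2 := Real.log_pos (by norm_num)
  have hlog2' : 0.6931471803 < Real.log 2 := Real.log_two_gt_d9
  -- the basic statement for large natural numbers
  have hbasic : ∀ n : ℕ, 2 ^ (8 ^ (i0 + 1)) ≤ n → ∃ a ∈ A, n ≤ a ∧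
      (a : ℝ) ≤ n + 2 * (C0 * (Real.log n / Real.log 2) *
        Real.exp (C0 * Real.sqrt (Real.log (Real.log n / Real.log 2)))) := by
    intro n hn
    have hlog : 8 ^ (i0 + 1) ≤ Nat.log 2 n := by
      have h1 : Nat.log 2 (2 ^ (8 ^ (i0 + 1))) = 8 ^ (i0 + 1) := Nat.log_pow (by norm_num) _
      rw [← h1]
      exact Nat.log_mono_right hn
    have hlogpos : Nat.log 2 n ≠ 0 := by
      have : 0 < 8 ^ (i0 + 1) := Nat.pow_pos (by omega)
      omega
    obtain ⟨j, hj⟩ : ∃ j, j = Nat.log 8 (Nat.log 2 n) := ⟨_, rfl⟩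
    have h1 : 8 ^ j ≤ Nat.log 2 n := by rw [hj]; exact Nat.pow_log_le_self 8 hlogpos
    have h2 : Nat.log 2 n < 8 ^ (j + 1) := by rw [hj]; exact Nat.lt_pow_succ_log_self (by omega) _
    have h3 : i0 + 1 ≤ j := by
      rw [hj]
      have := Nat.log_mono_right (b := 8) hlog
      rwa [Nat.log_pow (by omega)] at this
    obtain ⟨i, rfl⟩ : ∃ i, j = i + 1 := ⟨j - 1, by omega⟩
    obtain ⟨a, ha, hna, han⟩ := hgap n i (by omega) h1 h2
    refine ⟨a, ha, hna, ?_⟩
    have h4 : (a : ℝ) ≤ n + 2 * (gp (i + 1) : ℝ) := by exact_mod_cast han.le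
    have h5 : (8 : ℝ) ^ (i + 1) ≤ Real.log n / Real.log 2 := by
      have h6 : ((8 ^ (i + 1) : ℕ) : ℝ) ≤ (Nat.log 2 n : ℝ) := by exact_mod_cast h1
      push_cast at h6
      refine h6.trans ?_
      have h7 := Real.natLog_le_logb n 2
      rwa [Real.logb] at h7
    have h8 := hr i _ h5
    linarith
  -- a fixed large element
  obtain ⟨a0, ha0, ha0', -⟩ := hbasic (2 ^ (8 ^ (i0 + 1))) le_rfl
  obtain ⟨C, hCdef⟩ : ∃ C : ℝ, C = ((a0 : ℝ) + 1) / Real.log 2 + 6 * C0 := ⟨_, rfl⟩
  have ha0r : (0 : ℝ) ≤ a0 := Nat.cast_nonneg _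
  have hq0 : 0 ≤ ((a0 : ℝ) + 1) / Real.log 2 := by positivity
  have hC2 : 2 * C0 ≤ C := by rw [hCdef]; linarith
  refine ⟨C, fun x hx => ?_⟩
  have hx0 : (0 : ℝ) < x := by linarith
  have hlogx : Real.log 2 ≤ Real.log x := Real.log_le_log (by norm_num) hx
  have hlogx0 : 0 < Real.log x := lt_of_lt_of_le hlog2 hlogx
  obtain ⟨s, hs⟩ : ∃ s, s = Real.sqrt (Real.log (Real.log x)) := ⟨_, rfl⟩
  have hs0 : 0 ≤ s := by rw [hs]; exact Real.sqrt_nonneg _
  rw [← hs]
  have hE1 : 1 ≤ Real.exp (2 * C0 * s) := Real.one_le_exp (by positivity)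
  have hE2 : Real.exp (2 * C0 * s) ≤ Real.exp (C * s) :=
    Real.exp_le_exp.2 (mul_le_mul_of_nonneg_right hC2 hs0)
  have hterm : (a0 : ℝ) + 1 ≤ ((a0 : ℝ) + 1) / Real.log 2 * Real.log x := by
    rw [div_mul_eq_mul_div, le_div_iff₀ hlog2]
    exact mul_le_mul_of_nonneg_left hlogx (by positivity)
  -- the lower bound for the right side
  have hlow : (a0 : ℝ) + 1 + 6 * C0 * Real.log x * Real.exp (2 * C0 * s) ≤
      C * Real.log x * Real.exp (C * s) := by
    have e1 : ((a0 : ℝ) + 1) / Real.log 2 * Real.log x ≤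
        ((a0 : ℝ) + 1) / Real.log 2 * Real.log x * Real.exp (C * s) :=
      le_mul_of_one_le_right (by positivity) (hE1.trans hE2)
    have e2 : 6 * C0 * Real.log x * Real.exp (2 * C0 * s) ≤
        6 * C0 * Real.log x * Real.exp (C * s) :=
      mul_le_mul_of_nonneg_left hE2 (by positivity)
    calc _ ≤ ((a0 : ℝ) + 1) / Real.log 2 * Real.log x * Real.exp (C * s) +
          6 * C0 * Real.log x * Real.exp (C * s) := by linarith
      _ = _ := by rw [hCdef]; ring
  have hpos2 : 0 ≤ 6 * C0 * Real.log x * Real.exp (2 * C0 * s) := by positivity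
  rcases lt_or_ge x (2 ^ (8 ^ (i0 + 1)) : ℕ) with hlt | hge
  · refine ⟨a0, ha0, ?_, ?_⟩
    · have : ((2 ^ (8 ^ (i0 + 1)) : ℕ) : ℝ) ≤ a0 := by exact_mod_cast ha0'
      linarith
    · linarith
  · obtain ⟨n, hn⟩ : ∃ n, n = ⌈x⌉₊ := ⟨_, rfl⟩
    have hxn : x ≤ n := by rw [hn]; exact Nat.le_ceil x
    have hnx : (n : ℝ) < x + 1 := by rw [hn]; exact Nat.ceil_lt_add_one hx0.le
    have hnge : 2 ^ (8 ^ (i0 + 1)) ≤ n := by
      have : ((2 ^ (8 ^ (i0 + 1)) : ℕ) : ℝ) ≤ n := hge.trans hxn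
      exact_mod_cast this
    obtain ⟨a, ha, hna, han⟩ := hbasic n hnge
    refine ⟨a, ha, ?_, ?_⟩
    · have : (n : ℝ) ≤ a := by exact_mod_cast hna
      linarith
    · have hn0 : (0 : ℝ) < n := by linarith
      have hx256 : (2 : ℝ) ^ 8 ≤ x := by
        have h1 : 2 ^ 8 ≤ 2 ^ (8 ^ (i0 + 1)) := by
          apply Nat.pow_le_pow_right (by norm_num)
          calc 8 = 8 ^ 1 := (pow_one _).symm
            _ ≤ 8 ^ (i0 + 1) := Nat.pow_le_pow_right (by norm_num) (by omega)
        have h2 : ((2 ^ 8 : ℕ) : ℝ) ≤ ((2 ^ (8 ^ (i0 + 1)) : ℕ) : ℝ) := by exact_mod_cast h1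
        have h3 := h2.trans hge
        norm_num at h3 ⊢
        exact h3
      have hlogx3 : 3 ≤ Real.log x := by
        have h1 : Real.log ((2 : ℝ) ^ 8) ≤ Real.log x := Real.log_le_log (by positivity) hx256
        rw [Real.log_pow] at h1
        push_cast at h1
        linarith
      have hlogn : Real.log n ≤ 2 * Real.log x := by
        have h1 : (n : ℝ) ≤ x ^ 2 := by nlinarith
        calc Real.log n ≤ Real.log (x ^ 2) := Real.log_le_log hn0 h1
          _ = 2 * Real.log x := by rw [Real.log_pow]; norm_num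
      have hlogn2 : Real.log 2 ≤ Real.log n := Real.log_le_log (by norm_num) (by linarith)
      obtain ⟨y, hy⟩ : ∃ y, y = Real.log n / Real.log 2 := ⟨_, rfl⟩
      rw [← hy] at han
      have hy1 : 1 ≤ y := by rw [hy, le_div_iff₀ hlog2]; linarith
      have hy3 : y ≤ 3 * Real.log x := by
        rw [hy, div_le_iff₀ hlog2]
        nlinarith
      have hyl : Real.log y ≤ 4 * Real.log (Real.log x) := by
        have h1 : y ≤ (Real.log x) ^ 4 := by
          have e1 : 3 * Real.log x ≤ Real.log x ^ 2 := by nlinarith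
          have e2 : Real.log x ^ 2 ≤ Real.log x ^ 4 :=
            pow_le_pow_right₀ (by linarith) (by norm_num)
          linarith
        calc Real.log y ≤ Real.log ((Real.log x) ^ 4) := Real.log_le_log (by linarith) h1
          _ = 4 * Real.log (Real.log x) := by rw [Real.log_pow]; norm_num
      have hsy : Real.sqrt (Real.log y) ≤ 2 * s := by
        calc Real.sqrt (Real.log y) ≤ Real.sqrt (4 * Real.log (Real.log x)) := Real.sqrt_le_sqrt hyl
          _ = Real.sqrt (2 ^ 2 * Real.log (Real.log x)) := by norm_num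
          _ = 2 * s := by
              rw [Real.sqrt_mul (by norm_num), Real.sqrt_sq (by norm_num), hs]
      have hexp : Real.exp (C0 * Real.sqrt (Real.log y)) ≤ Real.exp (2 * C0 * s) := by
        apply Real.exp_le_exp.2
        calc C0 * Real.sqrt (Real.log y) ≤ C0 * (2 * s) := mul_le_mul_of_nonneg_left hsy hC0.le
          _ = 2 * C0 * s := by ring
      have hfin : 2 * (C0 * y * Real.exp (C0 * Real.sqrt (Real.log y))) ≤
          6 * C0 * Real.log x * Real.exp (2 * C0 * s) := by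
        calc 2 * (C0 * y * Real.exp (C0 * Real.sqrt (Real.log y))) ≤
              2 * (C0 * y * Real.exp (2 * C0 * s)) := by
                apply mul_le_mul_of_nonneg_left _ (by norm_num)
                exact mul_le_mul_of_nonneg_left hexp (by positivity)
          _ ≤ 2 * (C0 * (3 * Real.log x) * Real.exp (2 * C0 * s)) := by
                apply mul_le_mul_of_nonneg_left _ (by norm_num)
                apply mul_le_mul_of_nonneg_right _ (Real.exp_pos _).le
                exact mul_le_mul_of_nonneg_left hy3 hC0.le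
          _ = _ := by ring
      linarith

end Pool.Agent.Helper84K9.SG
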