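import Pool.Agent.Helper84K9.GP.Main

/-!
# Six term geometric progressions: the statements of the leaves

The construction of `GP` with two changes. (1) The random set of values is replaced by a random affine
image of a Behrend set in `ZMod P`: on a sphere there are no five terms `A j ^ 2 + B j + C` which are not
constant. So the density is `exp (- c √ log l)`. (2) Overlapping scales: an element of the level `i`
satisfies the conditions of the scales `i - 1` and `i`.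
-/

set_option autoImplicit false

namespace Pool.Agent.Helper84K9.SG

open Finset
open Helper84K9.GP (F rough)

/-- BEH. With `d = 8 ^ n`, base `8 d = 8 ^ (n + 1)`: `T` is the image under `Behrend.map (8 * d)` of the
large sphere `Behrend.sphere n d k` of `Behrend.exists_large_sphere`
(Mathlib.Combinatorics.Additive.AP.Three.Behrend). The digits are `< d`, so
`8 t < (8 d) ^ n = 8 ^ (n * (n + 1))`, and `map (8 d)` is injective on digits `< 8 d` (`Behrend.map_injOn`).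
Third differences: `t 3 + 3 t 1 = 3 t 2 + t 0` gives the same for the digit vectors (both sides have digits
`≤ 4 (d - 1) < 8 d`). So in each coordinate `x_j = x_0 + j p + j (j - 1) / 2 a` for `j ≤ 4`, and
`∑ x_j ^ 2 = k`. The fourth difference `k - 4 k + 6 k - 4 k + k = 0` is `6 ∑ a ^ 2`, so `a = 0`; then the
second difference is `2 ∑ p ^ 2 = 0`. -/
def S_BEH : Prop := ∀ n : ℕ, 1 ≤ n → ∃ T : Finset ℕ, (∀ t ∈ T, 8 * t < 8 ^ (n * (n + 1))) ∧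
  (∀ t : ℕ → ℕ, (∀ j < 5, t j ∈ T) → t 3 + 3 * t 1 = 3 * t 2 + t 0 → t 4 + 3 * t 2 = 3 * t 3 + t 1 →
    ∀ j < 5, t j = t 0) ∧
  8 ^ (n * n) ≤ n * 8 ^ (2 * n) * T.card

/-- WIN. Second moment. For `(α, β)` uniform in `(ZMod P)²` and `x ≠ y` the pair `(α x + β, α y + β)` is
uniform. For `w ∈ W` the points `x_t = w.1 + w.2 t`, `1 ≤ t ≤ N < P`, are distinct; let
`X = #{t | α x_t + β ∈ T}`. Then `∑_(α, β) (P X - N #T) ^ 2 ≤ P ^ 2 * N * #T * P` (pairwise independence), so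
at most `4 P ^ 3 / (N #T)` of the `P ^ 2` pairs have `2 P X < N #T`. In all less than `P ^ 2 / 2` pairs are bad
for some `w`, and `P ≤ P ^ 2 / 2` have `α = 0`. -/
def S_WIN : Prop := ∀ (P : ℕ) [Fact P.Prime] (T : Finset (ZMod P)) (N : ℕ), 1 ≤ N → N < P →
  ∀ W : Finset (ZMod P × ZMod P), (∀ w ∈ W, w.2 ≠ 0) → 8 * W.card * P < N * T.card →
  ∃ α β : ZMod P, α ≠ 0 ∧ ∀ w ∈ W,
    N * T.card ≤ 2 * P * ((Icc 1 N).filter (fun t : ℕ => α * (w.1 + w.2 * (t : ZMod P)) + β ∈ T)).card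

/-- the window condition for a set `S` of values at the scale `l` with `R` weights -/
def Windows (S : Set ℕ) (l R h : ℕ) : Prop := ∀ a v : ℕ, 1 ≤ v → a + v ^ 2 * R < R * l ^ 2 + 1 →
  ∀ D : Finset ℕ, (∀ t ∈ Icc 1 R, a + v ^ 2 * t ∈ S → t ∈ D) → h ≤ D.card

/-- no five terms of a quadratic progression with positive leading coefficient -/
def QFree (S : Set ℕ) : Prop := ∀ A B C : ℤ, 0 < C →
  ¬ ∀ j : ℕ, j < 5 → ∃ s ∈ S, (s : ℤ) = A + B * (j : ℤ) + C * (j : ℤ) ^ 2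

/-- COL. `R = l ^ 4`, `Q = 8 ^ (n (n + 1)) ≥ l ^ 6 + 1`, `P` a prime in `(Q, 2 Q]` (Bertrand:
`Nat.exists_prime_lt_and_le_two_mul`), `T` from BEH, mapped to `ZMod P`, `N = R / 2`. Windows: for
`1 ≤ v ≤ l`, `c < v ^ 2`, `g ≤ l ^ 6 / (v ^ 2 N) + 1`: start `c + v ^ 2 N g`, step `v ^ 2`; at most `5 l ^ 3`
of them. As `#T / P ≥ 1 / (2 n 8 ^ (3 n)) ≥ 8 ^ (- 4 n)` the condition of WIN holds if `80 * 8 ^ (4 n) < l`.
`S = {s ≤ l ^ 6 | α s + β ∈ T}`. `Windows`: the window `a + v ^ 2 t`, `t ≤ R`, contains one of the grid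
(`c = a mod v ^ 2`, `a ≤ c + v ^ 2 N g ≤ a + v ^ 2 N`), with at least `N #T / (2 P) ≥ R / (4 * 8 ^ (4 n))`
elements of `S`. (`v ≤ l` because `v ^ 2 R ≤ R l ^ 2`.) `QFree`: if `s_j = A + B j + C j ^ 2 ∈ S`, the
representatives `t_j < Q / 8` of `α s_j + β` satisfy the two third difference equations modulo `P`, both
sides are `≤ 4 Q / 8 < P`, so they hold in `ℕ`; all `t_j` are equal, so all `s_j` are equal (`α ≠ 0`,
`s_j ≤ l ^ 6 < P`), and `C = 0`. -/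
def S_COL : Prop := ∀ l n : ℕ, 1 ≤ n → 2 ∣ l → 80 * 8 ^ (4 * n) < l → l ^ 6 + 1 ≤ 8 ^ (n * (n + 1)) →
  ∃ (S : Set ℕ) (h : ℕ), QFree S ∧ Windows S l (l ^ 4) h ∧ l ^ 4 ≤ 4 * 8 ^ (4 * n) * h

/-- INT2. `card_inter_le` of GP/Count.lean for pairs of functions (the same proof, `sum_update` twice). -/
def S_INT2 : Prop := ∀ (ι ι' κ κ' : Type) [Fintype ι] [DecidableEq ι] [Fintype κ] [Fintype ι']
    [DecidableEq ι'] [Fintype κ'] (E : ℕ → (ι → κ) → (ι' → κ') → Prop) (c : ℕ → ι) (c' : ℕ → ι')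
    (𝒢 : Finset ℕ) (r : ℕ),
    (∀ a ∈ 𝒢, ∀ a' ∈ 𝒢, a ≠ a' → ∀ (ω : ι → κ) (ω' : ι' → κ') (t : κ) (t' : κ'),
      E a' (Function.update ω (c a) t) (Function.update ω' (c' a) t') ↔ E a' ω ω') →
    (∀ a ∈ 𝒢, ∀ (ω : ι → κ) (ω' : ι' → κ'),
      {p : κ × κ' | E a (Function.update ω (c a) p.1) (Function.update ω' (c' a) p.2)}.ncard ≤ r) →
    {p : (ι → κ) × (ι' → κ') | ∀ a ∈ 𝒢, E a p.1 p.2}.ncard * (Fintype.card κ * Fintype.card κ') ^ 𝒢.card ≤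
      r ^ 𝒢.card * (Fintype.card (ι → κ) * Fintype.card (ι' → κ'))

/-- the pairs of weights for which the interval `[x, x + G)` has no element satisfying both conditions -/
def NoHit (l l' R R' : ℕ) (S S' : Set ℕ) (G x : ℕ) :
    Set ((Fin (2 ^ l) → Fin R) × (Fin (2 ^ l') → Fin R')) :=
  {p | ∀ n : ℕ, x ≤ n → n < x + G → ¬ (F p.1 n ∈ S ∧ F p.2 n ∈ S')}

/-- NOH. From INT2 with `𝒢 = rough G x` and `E a ω ω' = ¬ (F ω a ∈ S ∧ F ω' a ∈ S')`, `c a` = a prime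
`> G` dividing `a` (it divides no other element of the interval): see the proof of `GP.scale`
(`F_update`, `F_update_zero`, `F_le`, `rough_card`); `r = R R' - h h'`, and
`(1 - h h' / (R R')) ^ (G / 4) ≤ exp (- G h h' / (4 R R'))`. Note `G ≤ 4 * #(rough G x)`. -/
def S_NOH : Prop := ∀ (l l' R R' h h' : ℕ) (S S' : Set ℕ) (G x : ℕ), 1 ≤ R → 1 ≤ R' → l ≤ l' →
  Windows S l R h → Windows S' l' R' h' → 20 ≤ G → (2 * G) ^ 8 ≤ x → x + G ≤ 2 ^ l →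
  ((NoHit l l' R R' S S' G x).ncard : ℝ) ≤ Real.exp (-((G : ℝ) * h * h' / (4 * R * R'))) *
    (Fintype.card (Fin (2 ^ l) → Fin R) * Fintype.card (Fin (2 ^ l') → Fin R'))

/-- SEQ. Choose `w i` step by step with the invariant `2 #{w' | (w i, w') ∈ Bad i} ≤ #(Ω (i + 1))`:
for at most half of the `w'` is `(w i, w')` bad, and at most a quarter of the `w'` violate the next
invariant (Markov, as `8 #(Bad (i + 1)) ≤ #Ω #Ω`). -/
def S_SEQ : Prop := ∀ (Ω : ℕ → Type) [∀ i, Fintype (Ω i)] [∀ i, Nonempty (Ω i)]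
  (Bad : (i : ℕ) → Set (Ω i × Ω (i + 1))),
  (∀ i, 8 * (Bad i).ncard ≤ Fintype.card (Ω i) * Fintype.card (Ω (i + 1))) →
  ∃ w : (i : ℕ) → Ω i, ∀ i, (w i, w (i + 1)) ∉ Bad i

/-- GP6. `b 0 < ... < b 5`. Let `8 ^ (i + 1) ≤ log₂ (b 1) < 8 ^ (i + 2)`, `i0 ≤ i`; then
`b 5 ≤ (b 1) ^ 5 < 2 ^ (8 ^ (i + 3))` (`GP.gp_le`), so each of `b 1, ..., b 5` has its index `i` or `i + 1`
(`GP.gp_mono_le`), hence is in `S (i + 1)`, below `2 ^ (8 ^ (i + 3))`: apply the hypothesis for `i + 1` to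
`fun j => b (1 + j)`. -/
def S_GP6 : Prop := ∀ (i0 : ℕ) (S : ℕ → Set ℕ),
  (∀ i, i0 ≤ i → ∀ b : ℕ → ℕ, (∀ j < 5, b j ∈ S i) → (∀ j < 5, 0 < b j) →
    (∀ j < 5, b j < 2 ^ (8 ^ (i + 2))) → (∀ j, j + 2 < 5 → b j * b (j + 2) = b (j + 1) ^ 2) → b 0 = b 1) →
  ∀ b : ℕ → ℕ, (∀ j < 6, 0 < b j ∧ ∃ i, i0 ≤ i ∧ 8 ^ (i + 1) ≤ Nat.log 2 (b j) ∧
      Nat.log 2 (b j) < 8 ^ (i + 2) ∧ b j ∈ S i ∧ b j ∈ S (i + 1)) →
    (∀ j, j + 2 < 6 → b j * b (j + 2) = b (j + 1) ^ 2) → ¬ b 0 < b 1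

/-- the number `n` of digits at the scale `i`, and the length of the gaps at the level `i + 1` -/
def dig (i : ℕ) : ℕ := Nat.sqrt (6 * (i + 2)) + 1

def gp (i : ℕ) : ℕ := 128 * 8 ^ (i + 2) * 8 ^ (8 * dig (i + 1))

/-- REAL. `gp (i + 1) = 128 * 8 ^ (i + 3) * 8 ^ (8 dig (i + 2))`, `dig (i + 2) ≤ √(6 (i + 4)) + 1`,
`i + 1 ≤ log y / log 8`. -/
def S_REAL : Prop := ∃ C : ℝ, 0 < C ∧ ∀ (i : ℕ) (y : ℝ), (8 : ℝ) ^ (i + 1) ≤ y →
  (gp (i + 1) : ℝ) ≤ C * y * Real.exp (C * Real.sqrt (Real.log y))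

/-- the conditions of COL for `l = 8 ^ (i + 2)`, `n = dig i`, and `(2 gp i) ^ 8 ≤ 2 ^ (8 ^ (i + 1))` -/
def S_PAR : Prop := ∃ i0 : ℕ, 1 ≤ i0 ∧ ∀ i, i0 ≤ i → 1 ≤ dig i ∧ 80 * 8 ^ (4 * dig i) < 8 ^ (i + 2) ∧
  (8 ^ (i + 2)) ^ 6 + 1 ≤ 8 ^ (dig i * (dig i + 1)) ∧ (2 * gp i) ^ 8 ≤ 2 ^ (8 ^ (i + 1)) ∧
  gp i ≤ gp (i + 1) ∧ dig i ≤ dig (i + 1)

end Pool.Agent.Helper84K9.SG
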