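import Pool.Agent.Helper84K9.SG.Stm

/-!
# The second moment of the number of points of a progression in a random affine image (leaf WIN)
-/

set_option autoImplicit false

namespace Pool.Agent.Helper84K9.SG

open Finset

namespace WinL

variable {P : ℕ} [Fact P.Prime]

theorem pair (f : ZMod P → ℤ) (hf : ∑ y, f y = 0) {x x' : ZMod P} (hx : x ≠ x') :
    ∑ p : ZMod P × ZMod P, f (p.1 * x + p.2) * f (p.1 * x' + p.2) = 0 := by
  have hinj : Function.Injective
      (fun p : ZMod P × ZMod P => (p.1 * x + p.2, p.1 * x' + p.2)) := by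
    rintro ⟨a, b⟩ ⟨a', b'⟩ h
    simp only [Prod.mk.injEq] at h
    obtain ⟨h1, h2⟩ := h
    have h3 : (a - a') * (x - x') = 0 := by linear_combination h1 - h2
    rcases mul_eq_zero.1 h3 with h4 | h4
    · have h5 : a = a' := sub_eq_zero.1 h4
      subst h5
      have h6 : b = b' := add_left_cancel h1
      rw [h6]
    · exact absurd (sub_eq_zero.1 h4) hx
  have hbij := Finite.injective_iff_bijective.1 hinj
  have h := hbij.sum_comp (fun q : ZMod P × ZMod P => f q.1 * f q.2)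
  simp only at h
  rw [h, Fintype.sum_prod_type]
  simp only [← Finset.mul_sum, hf, mul_zero, Finset.sum_const_zero]

theorem diag (f : ZMod P → ℤ) (x : ZMod P) :
    ∑ p : ZMod P × ZMod P, f (p.1 * x + p.2) * f (p.1 * x + p.2) = P * ∑ y, f y * f y := by
  rw [Fintype.sum_prod_type]
  have h : ∀ a : ZMod P, ∑ b : ZMod P, f (a * x + b) * f (a * x + b) = ∑ y, f y * f y := by
    intro a
    exact Equiv.sum_comp (Equiv.addLeft (a * x)) (fun y => f y * f y)
  simp only [h, Finset.sum_const, Finset.card_univ, ZMod.card, nsmul_eq_mul]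

/-- the second moment -/
theorem moment (f : ZMod P → ℤ) (hf : ∑ y, f y = 0) (I : Finset ℕ) (x : ℕ → ZMod P)
    (hx : ∀ t ∈ I, ∀ t' ∈ I, x t = x t' → t = t') :
    ∑ p : ZMod P × ZMod P, (∑ t ∈ I, f (p.1 * x t + p.2)) * (∑ t ∈ I, f (p.1 * x t + p.2)) =
      I.card * (P * ∑ y, f y * f y) := by
  have h1 : ∀ p : ZMod P × ZMod P,
      (∑ t ∈ I, f (p.1 * x t + p.2)) * (∑ t ∈ I, f (p.1 * x t + p.2)) =
        ∑ t ∈ I, ∑ t' ∈ I, f (p.1 * x t + p.2) * f (p.1 * x t' + p.2) := fun p =>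
    Finset.sum_mul_sum _ _ _ _
  simp only [h1]
  rw [Finset.sum_comm]
  have h2 : ∀ t ∈ I, ∑ p : ZMod P × ZMod P, ∑ t' ∈ I, f (p.1 * x t + p.2) * f (p.1 * x t' + p.2) =
      P * ∑ y, f y * f y := by
    intro t ht
    rw [Finset.sum_comm, Finset.sum_eq_single t]
    · exact diag f (x t)
    · intro t' ht' hne
      exact pair f hf fun h => hne (hx t ht t' ht' h).symm
    · intro h
      exact absurd ht h
  rw [Finset.sum_congr rfl h2, Finset.sum_const, nsmul_eq_mul]

end WinL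

open WinL in
theorem win : S_WIN := by
  intro P hP T N hN1 hNP W hW hlt
  classical
  have hP2 : 2 ≤ P := hP.out.two_le
  set τ : ℕ := T.card with hτ
  set f : ZMod P → ℤ := fun y => P * (if y ∈ T then 1 else 0) - τ with hfdef
  have hone : ∑ y : ZMod P, (if y ∈ T then (1 : ℤ) else 0) = τ := by
    rw [Finset.sum_ite_mem, Finset.univ_inter, Finset.sum_const, nsmul_eq_mul, mul_one]
  have hf0 : ∑ y, f y = 0 := by
    rw [hfdef]
    rw [Finset.sum_sub_distrib, ← Finset.mul_sum, hone, Finset.sum_const, Finset.card_univ,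
      ZMod.card, nsmul_eq_mul]
    ring
  have hf2 : ∑ y, f y * f y ≤ (P : ℤ) ^ 2 * τ := by
    have h1 : ∀ y : ZMod P, f y * f y =
        ((P : ℤ) ^ 2 - 2 * P * τ) * (if y ∈ T then 1 else 0) + (τ : ℤ) ^ 2 := by
      intro y
      simp only [hfdef]
      split_ifs <;> ring
    rw [Finset.sum_congr rfl fun y _ => h1 y, Finset.sum_add_distrib, ← Finset.mul_sum, hone,
      Finset.sum_const, Finset.card_univ, ZMod.card, nsmul_eq_mul]
    have h2 : (0 : ℤ) ≤ (P : ℤ) * τ ^ 2 := by positivity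
    nlinarith
  by_contra hcon
  push Not at hcon
  set X : ZMod P × ZMod P → ZMod P × ZMod P → ℕ := fun w p =>
    ((Icc 1 N).filter (fun t : ℕ => p.1 * (w.1 + w.2 * (t : ZMod P)) + p.2 ∈ T)).card with hX
  set Bad : ZMod P × ZMod P → Finset (ZMod P × ZMod P) := fun w =>
    univ.filter (fun p => 2 * P * X w p < N * τ) with hBad
  have hM : 0 < N * τ := lt_of_le_of_lt (Nat.zero_le _) hlt
  -- the size of the bad sets
  have hsize : ∀ w ∈ W, (Bad w).card * (N * τ) ≤ 4 * P ^ 3 := by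
    intro w hw
    have hinj : ∀ t ∈ Icc 1 N, ∀ t' ∈ Icc 1 N,
        w.1 + w.2 * (t : ZMod P) = w.1 + w.2 * (t' : ZMod P) → t = t' := by
      intro t ht t' ht' h
      have h1 := mul_left_cancel₀ (hW w hw) (add_left_cancel h)
      have h2 := (ZMod.natCast_eq_natCast_iff' t t' P).1 h1
      rwa [Nat.mod_eq_of_lt (lt_of_le_of_lt (mem_Icc.1 ht).2 hNP),
        Nat.mod_eq_of_lt (lt_of_le_of_lt (mem_Icc.1 ht').2 hNP)] at h2
    have hmom := moment f hf0 (Icc 1 N) (fun t => w.1 + w.2 * (t : ZMod P)) hinj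
    rw [Nat.card_Icc, Nat.add_sub_cancel] at hmom
    have hS : ∀ p : ZMod P × ZMod P, ∑ t ∈ Icc 1 N, f (p.1 * (w.1 + w.2 * (t : ZMod P)) + p.2) =
        (P : ℤ) * X w p - N * τ := by
      intro p
      simp only [hfdef, hX]
      rw [Finset.sum_sub_distrib, ← Finset.mul_sum, Finset.sum_const, Nat.card_Icc,
        Nat.add_sub_cancel, nsmul_eq_mul, ← Finset.sum_filter, Finset.sum_const, nsmul_eq_mul,
        mul_one]
    have hlow : ((Bad w).card : ℤ) * ((N : ℤ) * τ) ^ 2 ≤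
        ∑ p : ZMod P × ZMod P, 4 * ((∑ t ∈ Icc 1 N, f (p.1 * (w.1 + w.2 * (t : ZMod P)) + p.2)) *
          (∑ t ∈ Icc 1 N, f (p.1 * (w.1 + w.2 * (t : ZMod P)) + p.2))) := by
      calc ((Bad w).card : ℤ) * ((N : ℤ) * τ) ^ 2 = ∑ p ∈ Bad w, ((N : ℤ) * τ) ^ 2 := by
            rw [Finset.sum_const, nsmul_eq_mul]
        _ ≤ ∑ p ∈ Bad w, 4 * ((∑ t ∈ Icc 1 N, f (p.1 * (w.1 + w.2 * (t : ZMod P)) + p.2)) *
          (∑ t ∈ Icc 1 N, f (p.1 * (w.1 + w.2 * (t : ZMod P)) + p.2))) := by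
            refine Finset.sum_le_sum fun p hp => ?_
            have h1 : 2 * P * X w p < N * τ := (mem_filter.1 hp).2
            have h2 : 2 * (P : ℤ) * X w p < N * τ := by exact_mod_cast h1
            rw [hS p]
            have h3 : (0 : ℤ) ≤ (P : ℤ) * X w p := by positivity
            have h4 : (0 : ℤ) ≤ (N : ℤ) * τ := by positivity
            nlinarith
        _ ≤ _ := Finset.sum_le_sum_of_subset_of_nonneg (subset_univ _) fun p _ _ => by
            have := mul_self_nonneg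
              (∑ t ∈ Icc 1 N, f (p.1 * (w.1 + w.2 * (t : ZMod P)) + p.2))
            linarith
    rw [← Finset.mul_sum, hmom] at hlow
    have hMz : (0 : ℤ) < (N : ℤ) * τ := by exact_mod_cast hM
    have h5 : (N : ℤ) * ((P : ℤ) * ∑ y, f y * f y) ≤ N * (P * (P ^ 2 * τ)) := by
      refine mul_le_mul_of_nonneg_left (mul_le_mul_of_nonneg_left hf2 ?_) ?_ <;> positivity
    have h6 : (((Bad w).card : ℤ) * ((N : ℤ) * τ)) * ((N : ℤ) * τ) ≤
        (4 * (P : ℤ) ^ 3) * ((N : ℤ) * τ) := by nlinarith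
    have h7 := le_of_mul_le_mul_right h6 hMz
    exact_mod_cast h7
  -- the bad sets cover all pairs with `α ≠ 0`
  have hcov : (univ.filter (fun p : ZMod P × ZMod P => p.1 ≠ 0)) ⊆ W.biUnion Bad := by
    intro p hp
    obtain ⟨w, hw, hw2⟩ := hcon p.1 p.2 (mem_filter.1 hp).2
    exact mem_biUnion.2 ⟨w, hw, mem_filter.2 ⟨mem_univ _, hw2⟩⟩
  have hcount : P * P ≤ (univ.filter (fun p : ZMod P × ZMod P => p.1 ≠ 0)).card + P := by
    have h1 := Finset.card_filter_add_card_filter_not (s := (univ : Finset (ZMod P × ZMod P)))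
      (fun p => p.1 ≠ 0)
    rw [Finset.card_univ, Fintype.card_prod, ZMod.card] at h1
    have h2 : (univ.filter (fun p : ZMod P × ZMod P => ¬ p.1 ≠ 0)).card ≤ P := by
      have h3 : (univ.filter (fun p : ZMod P × ZMod P => ¬ p.1 ≠ 0)) ⊆
          (univ : Finset (ZMod P)).image (fun b => ((0 : ZMod P), b)) := by
        rintro ⟨a, b⟩ hp
        have h4 : a = 0 := by simpa using (mem_filter.1 hp).2
        exact mem_image.2 ⟨b, mem_univ _, by rw [h4]⟩
      calc _ ≤ _ := card_le_card h3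
        _ ≤ (univ : Finset (ZMod P)).card := card_image_le
        _ = P := by rw [Finset.card_univ, ZMod.card]
    omega
  have hsum : (univ.filter (fun p : ZMod P × ZMod P => p.1 ≠ 0)).card * (N * τ) ≤
      W.card * (4 * P ^ 3) := by
    calc _ ≤ (W.biUnion Bad).card * (N * τ) := Nat.mul_le_mul_right _ (card_le_card hcov)
      _ ≤ (∑ w ∈ W, (Bad w).card) * (N * τ) := Nat.mul_le_mul_right _ card_biUnion_le
      _ = ∑ w ∈ W, (Bad w).card * (N * τ) := by rw [Finset.sum_mul]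
      _ ≤ ∑ w ∈ W, 4 * P ^ 3 := Finset.sum_le_sum hsize
      _ = W.card * (4 * P ^ 3) := by rw [Finset.sum_const, smul_eq_mul]
  have e1 : (P * P) * (N * τ) ≤ W.card * (4 * P ^ 3) + P * (N * τ) := by
    calc (P * P) * (N * τ) ≤
        ((univ.filter (fun p : ZMod P × ZMod P => p.1 ≠ 0)).card + P) * (N * τ) :=
          Nat.mul_le_mul_right _ hcount
      _ = (univ.filter (fun p : ZMod P × ZMod P => p.1 ≠ 0)).card * (N * τ) + P * (N * τ) := by ring
      _ ≤ _ := Nat.add_le_add_right hsum _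
  have e2 : 2 * (W.card * (4 * P ^ 3)) < P * P * (N * τ) := by
    calc 2 * (W.card * (4 * P ^ 3)) = P * P * (8 * W.card * P) := by ring
      _ < P * P * (N * τ) := Nat.mul_lt_mul_of_pos_left hlt (by positivity)
  have e3 : 2 * (P * (N * τ)) ≤ P * P * (N * τ) := by
    calc 2 * (P * (N * τ)) ≤ P * (P * (N * τ)) := Nat.mul_le_mul_right _ hP2
      _ = P * P * (N * τ) := by ring
  omega

end Pool.Agent.Helper84K9.SG
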